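import Pool.Agent.Q67.AXI.Defs4
import Pool.Agent.Q149.AXI.T1W

/-!
# Project AXQ of helper67, job AXQ-1, by helper261 (adapts `Q149.AXI.T1W` of helper149)
-/

set_option autoImplicit false

open MeasureTheory Set Metric Filter Topology
open scoped ContDiff
open H459R3.NS Pool.Agent.W268.NS Pool.Agent.Q67.VD

namespace Pool.Agent.Q261.AXQ

open Pool.Agent.Q85.CC Pool.Agent.Q85.CL Pool.Agent.TH305.AX Pool.Agent.Q67.AXI
open Pool.Agent.W583.MD (sm_pd pd_mul')
open Pool.Agent.Q149.AXI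

lemma pt3 {s a b C₀ δ P w : ℝ} (hs : 0 < s) (hP : 0 < P) (hPs : P ≤ s) (hδ : 0 < δ)
    (hC : 0 ≤ C₀) (hw : |w| * s ≤ C₀) :
    |a * b * w| ≤ δ / 2 * (a ^ 2 / s) + C₀ ^ 2 / (2 * δ * P) * b ^ 2 := by
  have h1 : |w| ≤ C₀ / s := by rwa [le_div_iff₀ hs]
  rw [abs_mul, abs_mul]
  have h2 : |a| * |b| * C₀ ≤ (δ * a ^ 2 + C₀ ^ 2 / δ * b ^ 2) / 2 := by
    have h3 : 0 ≤ (δ * |a| - C₀ * |b|) ^ 2 / δ := by positivity
    have h4 : (δ * |a| - C₀ * |b|) ^ 2 / δ
        = δ * a ^ 2 + C₀ ^ 2 / δ * b ^ 2 - 2 * (|a| * |b| * C₀) := by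
      rw [← sq_abs a, ← sq_abs b]
      field_simp
      ring
    linarith
  have h5 : |a| * |b| * |w| ≤ |a| * |b| * (C₀ / s) :=
    mul_le_mul_of_nonneg_left h1 (by positivity)
  have h6 : |a| * |b| * (C₀ / s) = |a| * |b| * C₀ / s := by ring
  have h7 : |a| * |b| * C₀ / s ≤ (δ * a ^ 2 + C₀ ^ 2 / δ * b ^ 2) / 2 / s :=
    div_le_div_of_nonneg_right h2 hs.le
  have h8 : (δ * a ^ 2 + C₀ ^ 2 / δ * b ^ 2) / 2 / s
      = δ / 2 * (a ^ 2 / s) + C₀ ^ 2 / (2 * δ) * b ^ 2 / s := by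
    field_simp
  have h9 : C₀ ^ 2 / (2 * δ) * b ^ 2 / s ≤ C₀ ^ 2 / (2 * δ) * b ^ 2 / P :=
    div_le_div_of_nonneg_left (by positivity) hP hPs
  have h10 : C₀ ^ 2 / (2 * δ) * b ^ 2 / P = C₀ ^ 2 / (2 * δ * P) * b ^ 2 := by
    field_simp
  linarith

lemma pt4 {s a b C₀ δ w : ℝ} (hs : 0 < s) (hδ : 0 < δ) (hC : 0 ≤ C₀) (hw : |w| * s ≤ C₀) :
    |a * b * w| ≤ δ / 2 * a ^ 2 + C₀ ^ 2 / (2 * δ) * (b ^ 2 / s ^ 2) := by
  have h1 : |w| ≤ C₀ / s := by rwa [le_div_iff₀ hs]
  rw [abs_mul, abs_mul]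
  have h3 : 0 ≤ (δ * |a| - C₀ * |b| / s) ^ 2 / δ := by positivity
  have h4 : (δ * |a| - C₀ * |b| / s) ^ 2 / δ
      = δ * a ^ 2 + C₀ ^ 2 / δ * (b ^ 2 / s ^ 2) - 2 * (|a| * |b| * (C₀ / s)) := by
    rw [← sq_abs a, ← sq_abs b]
    field_simp
    ring
  have h5 : |a| * |b| * |w| ≤ |a| * |b| * (C₀ / s) :=
    mul_le_mul_of_nonneg_left h1 (by positivity)
  have h6 : C₀ ^ 2 / (2 * δ) * (b ^ 2 / s ^ 2) = C₀ ^ 2 / δ * (b ^ 2 / s ^ 2) / 2 := by
    field_simp
  linarith

/-- AXQ-T1; the facts about axisymmetric functions are not needed (adapts `t_T1W'` of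
`Q149.AXI.T1W`). -/
theorem t1q' (hAlg : StmAlg) (hU : StmUW) : StmT1Q := by
  intro γ h0 h1
  have hγ1 : γ < 1 := by linarith
  obtain ⟨C₁, hC₁, hUW⟩ := hU γ h0 h1
  refine ⟨1 + 4 * C₁, by positivity, fun K c r h r1 h1' C₀ δ hK hr1 hr hrle hh1 hh
    hhle hC₀ hδp hδ1 => ?_⟩
  have hδ0 : 0 ≤ δ := hδp.le
  obtain ⟨C', hC', hUC⟩ := hUW K c r h r1 h1' hK hr1 hr hrle hh1 hh hhle
  obtain ⟨R, hR⟩ := Cy_bdd (c := c) (r := r) (h := h) (by linarith)
  have hCym : MeasurableSet (Cy c r h) := (Cy_closed c r h).measurableSet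
  have hI0i : IntegrableOn (fun x : V => sg x ^ (γ - 1)) (Cy c r h) :=
    (sgp_int h0 hγ1 R).mono_set hR
  have hVf : volume (Cy c r h) < ⊤ :=
    (measure_mono hR).trans_lt measure_closedBall_lt_top
  obtain ⟨I0, hI0⟩ : ∃ I0 : ℝ, I0 = ∫ x in Cy c r h, sg x ^ (γ - 1) := ⟨_, rfl⟩
  obtain ⟨V0, hV0⟩ : ∃ V0 : ℝ, V0 = volume.real (Cy c r h) := ⟨_, rfl⟩
  have hI0n : 0 ≤ I0 := by
    rw [hI0]
    exact setIntegral_nonneg hCym fun x _ => Real.rpow_nonneg (sg_nonneg x) _
  have hV0n : 0 ≤ V0 := by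
    rw [hV0]
    exact measureReal_nonneg
  refine ⟨4 * C' + 12 * K ^ 4 * I0 + 6 * K ^ 4 * V0
    + 2 * (C₀ ^ 2 / δ * (2 * C' + 6 * K ^ 4 * V0)), by positivity,
    fun P v φ hP0 hP1 hv hax hdiv hcut hbd hci => ?_⟩
  obtain ⟨⟨sU, sW, sJ, sO⟩, -, -, halg⟩ := hAlg v hv hax
  have hUb := (hUC v φ hv hax hdiv hcut hbd).1
  have hUb2 := (hUC v φ hv hax hdiv hcut hbd).2.1
  have sφ := hcut.sm
  have cφ := hcut.cs
  -- abbreviations
  obtain ⟨U, hUdef⟩ : ∃ U : V → ℝ, U = UU v := ⟨_, rfl⟩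
  obtain ⟨W, hWdef⟩ : ∃ W : V → ℝ, W = WW v := ⟨_, rfl⟩
  obtain ⟨J, hJdef⟩ : ∃ J : V → ℝ, J = JJ v := ⟨_, rfl⟩
  obtain ⟨f, hfdef⟩ : ∃ f : V → ℝ, f = fun x => φ x * J x := ⟨_, rfl⟩
  rw [← hUdef] at sU
  rw [← hWdef] at sW
  rw [← hJdef] at sJ
  have sf : ContDiff ℝ ∞ f := by rw [hfdef]; exact sφ.mul sJ
  have cf : HasCompactSupport f := by rw [hfdef]; exact cφ.mul_right
  have sφf : ContDiff ℝ ∞ (fun x => φ x * f x) := sφ.mul sf
  have cφf : HasCompactSupport (fun x => φ x * f x) := cφ.mul_right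
  have sW2 : ContDiff ℝ ∞ (fun x => W x * pd 2 U x) := sW.mul (sm_pd sU 2)
  have sWR : ContDiff ℝ ∞ (fun x => W x * RR U x) := sW.mul (sm_RR sU)
  have sG1 : ContDiff ℝ ∞ (fun x => (φ x * f x) * (W x * pd 2 U x)) := sφf.mul sW2
  have sG2 : ContDiff ℝ ∞ (fun x => (φ x * f x) * (W x * RR U x)) := sφf.mul sWR
  have cG1 : HasCompactSupport (fun x => (φ x * f x) * (W x * pd 2 U x)) := cφf.mul_right
  have cG2 : HasCompactSupport (fun x => (φ x * f x) * (W x * RR U x)) := cφf.mul_right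
  have ib1 := ibp_rad h0 hγ1 sG1 cG1
  have ib2 := ibp_ver h0 sG2 cG2
  -- the remaining term
  obtain ⟨T, hT⟩ : ∃ T : V → ℝ, T = fun x => wt γ x * (-(2 * γ * f x * (φ x * pd 2 U x) * W x)
      - RR f x * (φ x * pd 2 U x) * W x + pd 2 f x * (φ x * RR U x) * W x)
      + wt γ x * (-(f x * RR φ x * W x * pd 2 U x) + f x * pd 2 φ x * W x * RR U x) := ⟨_, rfl⟩
  have hid : ∀ x, wt γ x * φ x ^ 2 * JJ v x * SS v x
      = (wt γ x * (2 * ((φ x * f x) * (W x * pd 2 U x))
        + RR (fun x => (φ x * f x) * (W x * pd 2 U x)) x)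
        + 2 * γ * (wt γ x * ((φ x * f x) * (W x * pd 2 U x))))
        - wt γ x * pd 2 (fun x => (φ x * f x) * (W x * RR U x)) x + T x := by
    intro x
    rw [RR_mul sφf sW2, RR_mul sφ sf, RR_mul sW (sm_pd sU 2), pd_mul' sφf sWR, pd_mul' sφ sf,
      pd_mul' sW (sm_RR sU), pd2_RR sU, hT]
    unfold SS
    rw [← hUdef, ← hWdef, ← hJdef, hfdef]
    ring
  have cG1c := sG1.continuous
  have iA : Integrable (fun x => wt γ x * (2 * ((φ x * f x) * (W x * pd 2 U x))
      + RR (fun x => (φ x * f x) * (W x * pd 2 U x)) x)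
      + 2 * γ * (wt γ x * ((φ x * f x) * (W x * pd 2 U x)))) := by
    have j1 := int_wt h0 cG1c cG1
    have cR : HasCompactSupport (RR (fun x => (φ x * f x) * (W x * pd 2 U x))) := by
      refine HasCompactSupport.intro cG1.isCompact fun x hx => ?_
      unfold RR
      rw [pd_off hx, pd_off hx]
      ring
    have j2 := int_wt h0 (sm_RR sG1).continuous cR
    refine (((j1.const_mul 2).add j2).add (j1.const_mul (2 * γ))).congr
      (Eventually.of_forall fun x => ?_)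
    simp only [Pi.add_apply]
    ring
  have iB : Integrable (fun x => wt γ x * pd 2 (fun x => (φ x * f x) * (W x * RR U x)) x) :=
    int_wt h0 (sm_pd sG2 2).continuous (cs_pd cG2 2)
  have hφoff : ∀ x, x ∉ tsupport φ → φ x = 0 ∧ f x = 0 := by
    intro x hx
    have h2 : φ x = 0 := image_eq_zero_of_notMem_tsupport hx
    exact ⟨h2, by rw [hfdef]; simp [h2]⟩
  have iT : Integrable T := by
    obtain ⟨Q, hQ⟩ : ∃ Q : V → ℝ, Q = fun x => (-(2 * γ * f x * (φ x * pd 2 U x) * W x)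
      - RR f x * (φ x * pd 2 U x) * W x + pd 2 f x * (φ x * RR U x) * W x)
      + (-(f x * RR φ x * W x * pd 2 U x) + f x * pd 2 φ x * W x * RR U x) := ⟨_, rfl⟩
    have cQ : Continuous Q := by
      have c1 := sφ.continuous
      have c2 := sf.continuous
      have c3 := sW.continuous
      have c4 := (sm_pd sU 2).continuous
      have c5 := (sm_RR sU).continuous
      have c6 := (sm_RR sf).continuous
      have c7 := (sm_pd sf 2).continuous
      have c8 := (sm_pd sφ 2).continuous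
      have c9 := (sm_RR sφ).continuous
      rw [hQ]
      fun_prop
    have sQ : HasCompactSupport Q := by
      refine HasCompactSupport.intro cφ.isCompact fun x hx => ?_
      rw [hQ]
      simp only [(hφoff x hx).1, (hφoff x hx).2]
      ring
    refine (int_wt h0 cQ sQ).congr (Eventually.of_forall fun x => ?_)
    rw [hQ, hT]
    ring
  have hint : ∫ x, wt γ x * φ x ^ 2 * JJ v x * SS v x = ∫ x, T x := by
    rw [integral_congr_ae (Eventually.of_forall hid)]
    have e1 := integral_add (iA.sub iB) iT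
    have e2 := integral_sub iA iB
    simp only [Pi.sub_apply] at e1 e2
    rw [e1, e2, ib1, ib2]
    ring
  -- pointwise facts
  have hCoCy : ∀ x ∈ Co c r h, x ∈ Cy c r h := fun x hx => ⟨hx.1.le, hx.2.le⟩
  have hgφ : ∀ x, x ∈ Cy c r1 h1' → ∀ i, pd i φ x = 0 := by
    intro x hx i
    apply pd_zero_of_max
    intro y
    rw [hcut.one x hx]
    exact hcut.le y
  have hOut : ∀ x ∈ Co c r h, x ∉ Cy c r1 h1' → x ∈ Out c r h r1 h1' := by
    intro x hx hx2
    refine ⟨hCoCy x hx, ?_⟩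
    by_contra hcon
    push Not at hcon
    exact hx2 ⟨hcon.1.le, hcon.2.le⟩
  have hφ1 : ∀ x, |φ x| ≤ 1 := by
    intro x
    rw [abs_of_nonneg (hcut.nn x)]
    exact hcut.le x
  have hsg1 : ∀ x ∈ Cy c r h, sg x ≤ 1 := by
    intro x hx
    have h3 : sg x ≤ r ^ 2 := hx.1
    nlinarith
  have hxi : ∀ x ∈ Cy c r h, |x 0| ≤ 1 ∧ |x 1| ≤ 1 := by
    intro x hx
    have h3 := hsg1 x hx
    unfold sg at h3
    constructor
    · apply abs_le_of_sq_le_sq _ zero_le_one
      nlinarith [sq_nonneg (x 1)]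
    · apply abs_le_of_sq_le_sq _ zero_le_one
      nlinarith [sq_nonneg (x 0)]
  have hwt1 : ∀ x ∈ Cy c r h, wt γ x ≤ 1 := fun x hx =>
    Real.rpow_le_one (sg_nonneg x) (hsg1 x hx) h0.le
  -- the terms with derivatives of the cut-off function
  have hE : ∀ x ∈ Co c r h, |-(f x * RR φ x * W x * pd 2 U x) + f x * pd 2 φ x * W x * RR U x|
      ≤ 3 * K ^ 4 := by
    intro x hx
    by_cases hx2 : x ∈ Cy c r1 h1'
    · have e0 := hgφ x hx2 0
      have e1 := hgφ x hx2 1
      have e2 := hgφ x hx2 2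
      have e3 : RR φ x = 0 := by
        unfold RR
        rw [e0, e1]
        ring
      rw [e3, e2]
      simp only [mul_zero, zero_mul, neg_zero, add_zero, abs_zero]
      positivity
    · obtain ⟨-, bU, bW, bJ, -, bd⟩ := hbd x (hOut x hx hx2)
      rw [← hWdef] at bW
      rw [← hJdef] at bJ
      have bd0 := (bd 0).1
      have bd1 := (bd 1).1
      have bd2 := (bd 2).1
      rw [← hUdef] at bd0 bd1 bd2
      obtain ⟨bφ, -, bR⟩ := hcut.bd x
      have bf : |f x| ≤ K := by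
        rw [hfdef]
        show |φ x * J x| ≤ K
        rw [abs_mul]
        calc |φ x| * |J x| ≤ 1 * K := mul_le_mul (hφ1 x) bJ (abs_nonneg _) zero_le_one
          _ = K := one_mul K
      have bR' : |RR φ x| ≤ K := bR.trans (by
        have := hsg1 x (hCoCy x hx)
        nlinarith)
      have bRU : |RR U x| ≤ 2 * K := by
        obtain ⟨k0, k1⟩ := hxi x (hCoCy x hx)
        unfold RR
        calc |x 0 * pd 0 U x + x 1 * pd 1 U x| ≤ |x 0| * |pd 0 U x| + |x 1| * |pd 1 U x| := by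
              rw [← abs_mul, ← abs_mul]
              exact abs_add_le _ _
          _ ≤ 1 * K + 1 * K := by
              apply add_le_add
              · exact mul_le_mul k0 bd0 (abs_nonneg _) zero_le_one
              · exact mul_le_mul k1 bd1 (abs_nonneg _) zero_le_one
          _ = 2 * K := by ring
      calc _ ≤ |f x * RR φ x * W x * pd 2 U x| + |f x * pd 2 φ x * W x * RR U x| := by
            have := abs_add_le (-(f x * RR φ x * W x * pd 2 U x)) (f x * pd 2 φ x * W x * RR U x)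
            rwa [abs_neg] at this
        _ = |f x| * |RR φ x| * |W x| * |pd 2 U x| + |f x| * |pd 2 φ x| * |W x| * |RR U x| := by
            simp only [abs_mul]
        _ ≤ K * K * K * K + K * K * K * (2 * K) := by
            have b2 := bφ 2
            gcongr
        _ = 3 * K ^ 4 := by ring
  -- the quotient
  obtain ⟨q, hq⟩ : ∃ q : V → ℝ, q = fun x => φ x ^ 2 * gr2 U x := ⟨_, rfl⟩
  have cq : Continuous q := by
    rw [hq]
    have c1 := sφ.continuous
    have c2 := sm_gr2 sU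
    fun_prop
  have kq : HasCompactSupport q := by
    refine HasCompactSupport.intro cφ.isCompact fun x hx => ?_
    rw [hq]
    simp [(hφoff x hx).1]
  have iq : Integrable (fun x => wt γ x * (q x / sg x)) := int_div h0 hγ1 cq kq
  have sφU : ContDiff ℝ ∞ (fun x => φ x * U x) := sφ.mul sU
  have cφU : HasCompactSupport (fun x => φ x * U x) := cφ.mul_right
  have igU : Integrable (fun x => wt γ x * (gr2 (fun y => φ y * U y) x / sg x)) :=
    int_div h0 hγ1 (sm_gr2 sφU) (cs_gr2 cφU)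
  have hqb : ∀ x, wt γ x * (q x / sg x) ≤ 2 * (wt γ x * (gr2 (fun y => φ y * U y) x / sg x))
      + 6 * K ^ 4 * (Cy c r h).indicator (fun y => sg y ^ (γ - 1)) x := by
    intro x
    rw [wt_div hγ1 h0, wt_div hγ1 h0]
    have hp := Real.rpow_nonneg (sg_nonneg x) (γ - 1)
    have hi : ∀ i, (φ x * pd i U x) ^ 2 ≤ 2 * pd i (fun y => φ y * U y) x ^ 2
        + 2 * (U x * pd i φ x) ^ 2 := by
      intro i
      rw [pd_mul' sφ sU]
      nlinarith [sq_nonneg (φ x * pd i U x + pd i φ x * U x + U x * pd i φ x)]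
    have hq1 : q x ≤ 2 * gr2 (fun y => φ y * U y) x + 2 * (U x ^ 2 * gr2 φ x) := by
      rw [hq]
      unfold gr2
      simp only [Fin.sum_univ_three]
      linarith [hi 0, hi 1, hi 2, mul_pow (φ x) (pd 0 U x) 2, mul_pow (φ x) (pd 1 U x) 2,
        mul_pow (φ x) (pd 2 U x) 2, mul_pow (U x) (pd 0 φ x) 2, mul_pow (U x) (pd 1 φ x) 2,
        mul_pow (U x) (pd 2 φ x) 2]
    have hq2 : sg x ^ (γ - 1) * (U x ^ 2 * gr2 φ x)
        ≤ 3 * K ^ 4 * (Cy c r h).indicator (fun y => sg y ^ (γ - 1)) x := by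
      have hind : 0 ≤ (Cy c r h).indicator (fun y => sg y ^ (γ - 1)) x :=
        indicator_nonneg (fun y _ => Real.rpow_nonneg (sg_nonneg y) _) x
      by_cases hx : x ∈ tsupport φ
      · have hxCo := hcut.supp hx
        rw [indicator_of_mem (hCoCy x hxCo)]
        by_cases hx2 : x ∈ Cy c r1 h1'
        · have e : gr2 φ x = 0 := by
            unfold gr2
            simp [hgφ x hx2]
          rw [e, mul_zero, mul_zero]
          positivity
        · obtain ⟨-, bU, -⟩ := hbd x (hOut x hxCo hx2)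
          rw [← hUdef] at bU
          obtain ⟨bφ, -, -⟩ := hcut.bd x
          have b1 : U x ^ 2 ≤ K ^ 2 := by
            rw [← sq_abs]
            exact pow_le_pow_left₀ (abs_nonneg _) bU 2
          have b2 : gr2 φ x ≤ 3 * K ^ 2 := by
            unfold gr2
            rw [Fin.sum_univ_three]
            have : ∀ i, pd i φ x ^ 2 ≤ K ^ 2 := fun i => by
              rw [← sq_abs]
              exact pow_le_pow_left₀ (abs_nonneg _) (bφ i) 2
            linarith [this 0, this 1, this 2]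
          calc sg x ^ (γ - 1) * (U x ^ 2 * gr2 φ x) ≤ sg x ^ (γ - 1) * (K ^ 2 * (3 * K ^ 2)) :=
                mul_le_mul_of_nonneg_left (mul_le_mul b1 b2 (gr2_nonneg _ _) (by positivity)) hp
            _ = 3 * K ^ 4 * sg x ^ (γ - 1) := by ring
      · have e : gr2 φ x = 0 := by
          unfold gr2
          simp [pd_off hx]
        rw [e, mul_zero, mul_zero]
        positivity
    calc sg x ^ (γ - 1) * q x ≤ sg x ^ (γ - 1) * (2 * gr2 (fun y => φ y * U y) x
          + 2 * (U x ^ 2 * gr2 φ x)) := mul_le_mul_of_nonneg_left hq1 hp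
      _ = 2 * (sg x ^ (γ - 1) * gr2 (fun y => φ y * U y) x)
          + 2 * (sg x ^ (γ - 1) * (U x ^ 2 * gr2 φ x)) := by ring
      _ ≤ _ := by linarith
  have hQ0 : ∫ x, wt γ x * (q x / sg x) ≤
      2 * (∫ x, wt γ x * (gr2 (fun y => φ y * U y) x / sg x)) + 6 * K ^ 4 * I0 := by
    have i1 : Integrable ((Cy c r h).indicator (fun y : V => sg y ^ (γ - 1))) :=
      (integrable_indicator_iff hCym).2 hI0i
    refine (integral_mono iq ((igU.const_mul 2).add (i1.const_mul (6 * K ^ 4))) hqb).trans ?_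
    have e := integral_add (igU.const_mul 2) (i1.const_mul (6 * K ^ 4))
    simp only [Pi.add_apply] at e ⊢
    rw [e, integral_const_mul, integral_const_mul, integral_indicator hCym, hI0]
  -- the bound without the quotient
  have iqw : Integrable (fun x => wt γ x * q x) := int_wt h0 cq kq
  have igUw : Integrable (fun x => wt γ x * gr2 (fun y => φ y * U y) x) :=
    int_wt h0 (sm_gr2 sφU) (cs_gr2 cφU)
  have iCy : Integrable ((Cy c r h).indicator (fun _ : V => (1 : ℝ))) := by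
    rw [integrable_indicator_iff hCym]
    exact integrableOn_const hVf.ne
  have hqb2 : ∀ x, wt γ x * q x ≤ 2 * (wt γ x * gr2 (fun y => φ y * U y) x)
      + 6 * K ^ 4 * (Cy c r h).indicator (fun _ => (1 : ℝ)) x := by
    intro x
    have hp := wt_nonneg γ x
    have hi : ∀ i, (φ x * pd i U x) ^ 2 ≤ 2 * pd i (fun y => φ y * U y) x ^ 2
        + 2 * (U x * pd i φ x) ^ 2 := by
      intro i
      rw [pd_mul' sφ sU]
      nlinarith [sq_nonneg (φ x * pd i U x + pd i φ x * U x + U x * pd i φ x)]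
    have hq1 : q x ≤ 2 * gr2 (fun y => φ y * U y) x + 2 * (U x ^ 2 * gr2 φ x) := by
      rw [hq]
      unfold gr2
      simp only [Fin.sum_univ_three]
      linarith [hi 0, hi 1, hi 2, mul_pow (φ x) (pd 0 U x) 2, mul_pow (φ x) (pd 1 U x) 2,
        mul_pow (φ x) (pd 2 U x) 2, mul_pow (U x) (pd 0 φ x) 2, mul_pow (U x) (pd 1 φ x) 2,
        mul_pow (U x) (pd 2 φ x) 2]
    have hq2 : wt γ x * (U x ^ 2 * gr2 φ x)
        ≤ 3 * K ^ 4 * (Cy c r h).indicator (fun _ => (1 : ℝ)) x := by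
      have hind : 0 ≤ (Cy c r h).indicator (fun _ => (1 : ℝ)) x :=
        indicator_nonneg (fun _ _ => zero_le_one) x
      by_cases hx : x ∈ tsupport φ
      · have hxCo := hcut.supp hx
        rw [indicator_of_mem (hCoCy x hxCo)]
        by_cases hx2 : x ∈ Cy c r1 h1'
        · have e : gr2 φ x = 0 := by
            unfold gr2
            simp [hgφ x hx2]
          rw [e, mul_zero, mul_zero]
          positivity
        · obtain ⟨-, bU, -⟩ := hbd x (hOut x hxCo hx2)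
          rw [← hUdef] at bU
          obtain ⟨bφ, -, -⟩ := hcut.bd x
          have b1 : U x ^ 2 ≤ K ^ 2 := by
            rw [← sq_abs]
            exact pow_le_pow_left₀ (abs_nonneg _) bU 2
          have b2 : gr2 φ x ≤ 3 * K ^ 2 := by
            unfold gr2
            rw [Fin.sum_univ_three]
            have : ∀ i, pd i φ x ^ 2 ≤ K ^ 2 := fun i => by
              rw [← sq_abs]
              exact pow_le_pow_left₀ (abs_nonneg _) (bφ i) 2
            linarith [this 0, this 1, this 2]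
          calc wt γ x * (U x ^ 2 * gr2 φ x) ≤ 1 * (K ^ 2 * (3 * K ^ 2)) :=
                mul_le_mul (hwt1 x (hCoCy x hxCo)) (mul_le_mul b1 b2 (gr2_nonneg _ _)
                  (by positivity)) (mul_nonneg (sq_nonneg _) (gr2_nonneg _ _)) zero_le_one
            _ = 3 * K ^ 4 * 1 := by ring
      · have e : gr2 φ x = 0 := by
          unfold gr2
          simp [pd_off hx]
        rw [e, mul_zero, mul_zero]
        positivity
    calc wt γ x * q x ≤ wt γ x * (2 * gr2 (fun y => φ y * U y) x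
          + 2 * (U x ^ 2 * gr2 φ x)) := mul_le_mul_of_nonneg_left hq1 hp
      _ = 2 * (wt γ x * gr2 (fun y => φ y * U y) x)
          + 2 * (wt γ x * (U x ^ 2 * gr2 φ x)) := by ring
      _ ≤ _ := by linarith
  have hQ0w : ∫ x, wt γ x * q x ≤ 2 * GW γ (fun y => φ y * U y) + 6 * K ^ 4 * V0 := by
    refine (integral_mono iqw ((igUw.const_mul 2).add (iCy.const_mul (6 * K ^ 4))) hqb2).trans ?_
    have e := integral_add (igUw.const_mul 2) (iCy.const_mul (6 * K ^ 4))
    have e5 : ∫ x in Cy c r h, (1 : ℝ) = V0 := by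
      rw [hV0]
      simp [Measure.real]
    simp only [Pi.add_apply] at e ⊢
    rw [e, integral_const_mul, integral_const_mul, integral_indicator hCym, e5]
    rfl
  -- the main estimate
  have igf : Integrable (fun x => wt γ x * gr2 f x) := int_wt h0 (sm_gr2 sf) (cs_gr2 cf)
  have ipf : Integrable (fun x => wt γ x * (f x ^ 2 / sg x)) :=
    int_div h0 hγ1 (sf.continuous.pow 2) (by
      refine HasCompactSupport.intro cφ.isCompact fun x hx => ?_
      simp [(hφoff x hx).2])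
  have hTb : ∀ x, |T x| ≤ (δ / 2 * (wt γ x * gr2 f x) + δ / 2 * (wt γ x * (q x / sg x)))
      + (γ * δ * (wt γ x * (f x ^ 2 / sg x)) + γ * δ * (wt γ x * (q x / sg x)))
      + (3 * K ^ 4 * (Cy c r h).indicator (fun _ => (1 : ℝ)) x
        + C₀ ^ 2 / (δ * P) * (wt γ x * q x)) := by
    intro x
    have hw0 := wt_nonneg γ x
    have hs0 := sg_nonneg x
    have hq0 : 0 ≤ q x := by
      rw [hq]
      exact mul_nonneg (sq_nonneg _) (gr2_nonneg _ _)
    have hgf0 := gr2_nonneg f x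
    have hind : 0 ≤ (Cy c r h).indicator (fun _ => (1 : ℝ)) x :=
      indicator_nonneg (fun _ _ => zero_le_one) x
    have hRHS : 0 ≤ (δ / 2 * (wt γ x * gr2 f x) + δ / 2 * (wt γ x * (q x / sg x)))
      + (γ * δ * (wt γ x * (f x ^ 2 / sg x)) + γ * δ * (wt γ x * (q x / sg x)))
      + (3 * K ^ 4 * (Cy c r h).indicator (fun _ => (1 : ℝ)) x
        + C₀ ^ 2 / (δ * P) * (wt γ x * q x)) := by positivity
    by_cases hx : x ∈ tsupport φ
    swap
    · have e : T x = 0 := by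
        rw [hT]
        simp only [(hφoff x hx).1, (hφoff x hx).2]
        ring
      rw [e, abs_zero]
      exact hRHS
    rcases hs0.eq_or_lt with hs | hs
    · have e : wt γ x = 0 := by
        unfold wt
        rw [← hs, Real.zero_rpow h0.ne']
      have e2 : T x = 0 := by
        rw [hT]
        simp only [e]
        ring
      rw [e2, abs_zero]
      exact hRHS
    have hxCo := hcut.supp hx
    rw [indicator_of_mem (hCoCy x hxCo)]
    have hWs0 : |W x| * sg x ≤ C₀ ∧ (sg x ≤ P → |W x| * sg x ≤ δ) := by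
      obtain ⟨h3, h3'⟩ := hci x hxCo
      obtain ⟨-, -, -, -, -, -, -, -, h4, -⟩ := halg x
      rw [h4, abs_mul, abs_of_pos hs, ← hWdef] at h3 h3'
      exact ⟨by linarith, fun h => by linarith [h3' h]⟩
    have r1' : RR f x ^ 2 / sg x ≤ pd 0 f x ^ 2 + pd 1 f x ^ 2 := by
      rw [div_le_iff₀ hs, mul_comm]
      exact RR_sq f x
    have r2 : (φ x * RR U x) ^ 2 / sg x ^ 2 ≤ φ x ^ 2 * (pd 0 U x ^ 2 + pd 1 U x ^ 2) / sg x := by
      rw [div_le_div_iff₀ (by positivity) hs]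
      have := mul_le_mul_of_nonneg_left (RR_sq U x) (sq_nonneg (φ x))
      nlinarith [mul_le_mul_of_nonneg_right this hs.le]
    have eq1 : q x / sg x = φ x ^ 2 * (pd 0 U x ^ 2 + pd 1 U x ^ 2) / sg x
        + (φ x * pd 2 U x) ^ 2 / sg x := by
      rw [hq]
      unfold gr2
      simp only [Fin.sum_univ_three]
      ring
    have eq2 : gr2 f x = pd 0 f x ^ 2 + pd 1 f x ^ 2 + pd 2 f x ^ 2 := by
      unfold gr2
      rw [Fin.sum_univ_three]
    have hn1 : 0 ≤ φ x ^ 2 * (pd 0 U x ^ 2 + pd 1 U x ^ 2) / sg x := by positivity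
    have t2 : |-(2 * γ * f x * (φ x * pd 2 U x) * W x)
        - RR f x * (φ x * pd 2 U x) * W x + pd 2 f x * (φ x * RR U x) * W x|
        ≤ |2 * γ * f x * (φ x * pd 2 U x) * W x| + |RR f x * (φ x * pd 2 U x) * W x|
          + |pd 2 f x * (φ x * RR U x) * W x| := by
      refine (abs_add_le _ _).trans ?_
      have := abs_sub (-(2 * γ * f x * (φ x * pd 2 U x) * W x))
        (RR f x * (φ x * pd 2 U x) * W x)
      rw [abs_neg] at this
      linarith
    have t0 : |2 * γ * f x * (φ x * pd 2 U x) * W x|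
        = (2 * γ) * |f x * (φ x * pd 2 U x) * W x| := by
      have e : 2 * γ * f x * (φ x * pd 2 U x) * W x
          = (2 * γ) * (f x * (φ x * pd 2 U x) * W x) := by ring
      rw [e, abs_mul, abs_of_pos (by positivity : 0 < 2 * γ)]
    have u1 := mul_le_mul_of_nonneg_left r1' (show 0 ≤ δ / 2 by positivity)
    have hCq : 0 ≤ C₀ ^ 2 / (δ * P) * q x := by positivity
    have hP : |-(2 * γ * f x * (φ x * pd 2 U x) * W x)
        - RR f x * (φ x * pd 2 U x) * W x + pd 2 f x * (φ x * RR U x) * W x|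
        ≤ δ / 2 * gr2 f x + δ / 2 * (q x / sg x) + (γ * δ * (f x ^ 2 / sg x)
          + γ * δ * (q x / sg x)) + C₀ ^ 2 / (δ * P) * q x := by
      rcases le_total (sg x) P with hsP | hsP
      · have hWs := hWs0.2 hsP
        have p1 := pt1 (a := f x) (b := φ x * pd 2 U x) hs hWs
        have p2 := pt1 (a := RR f x) (b := φ x * pd 2 U x) hs hWs
        have p3 := pt2 (a := pd 2 f x) (b := φ x * RR U x) hs hWs
        have t1 : |2 * γ * f x * (φ x * pd 2 U x) * W x|
            ≤ γ * δ * (f x ^ 2 / sg x) + γ * δ * ((φ x * pd 2 U x) ^ 2 / sg x) := by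
          rw [t0]
          calc 2 * γ * |f x * (φ x * pd 2 U x) * W x|
              ≤ 2 * γ * (δ / 2 * (f x ^ 2 / sg x + (φ x * pd 2 U x) ^ 2 / sg x)) :=
                mul_le_mul_of_nonneg_left p1 (by positivity)
            _ = _ := by ring
        have u2 := mul_le_mul_of_nonneg_left r2 (show 0 ≤ δ / 2 by positivity)
        have u3 : 0 ≤ γ * δ * (φ x ^ 2 * (pd 0 U x ^ 2 + pd 1 U x ^ 2) / sg x) := by positivity
        rw [eq2]
        have eq1' := eq1
        rw [eq1']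
        linarith [t1, t2, p2, p3, u1, u2, u3, hCq]
      · have hWs := hWs0.1
        have p1 := pt3 (a := f x) (b := φ x * pd 2 U x) hs hP0 hsP hδp hC₀ hWs
        have p2 := pt3 (a := RR f x) (b := φ x * pd 2 U x) hs hP0 hsP hδp hC₀ hWs
        have p3 := pt4 (a := pd 2 f x) (b := φ x * RR U x) hs hδp hC₀ hWs
        have t1 : |2 * γ * f x * (φ x * pd 2 U x) * W x|
            ≤ γ * δ * (f x ^ 2 / sg x) + γ * (C₀ ^ 2 / (δ * P)) * (φ x * pd 2 U x) ^ 2 := by
          rw [t0]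
          refine (mul_le_mul_of_nonneg_left p1 (by positivity : 0 ≤ 2 * γ)).trans (le_of_eq ?_)
          field_simp
        have eq3 : q x = φ x ^ 2 * (pd 0 U x ^ 2 + pd 1 U x ^ 2) + (φ x * pd 2 U x) ^ 2 := by
          rw [hq]
          unfold gr2
          simp only [Fin.sum_univ_three]
          ring
        have u2 : C₀ ^ 2 / (2 * δ) * ((φ x * RR U x) ^ 2 / sg x ^ 2)
            ≤ C₀ ^ 2 / (2 * δ * P) * (φ x ^ 2 * (pd 0 U x ^ 2 + pd 1 U x ^ 2)) := by
          have v1 : (φ x * RR U x) ^ 2 / sg x ^ 2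
              ≤ φ x ^ 2 * (pd 0 U x ^ 2 + pd 1 U x ^ 2) / P := by
            refine r2.trans ?_
            exact div_le_div_of_nonneg_left (by positivity) hP0 hsP
          refine (mul_le_mul_of_nonneg_left v1 (by positivity)).trans (le_of_eq ?_)
          field_simp
        have hqs : 0 ≤ q x / sg x := div_nonneg hq0 hs.le
        have hD : 0 ≤ C₀ ^ 2 / (δ * P) := by positivity
        have w1 : C₀ ^ 2 / (2 * δ * P) = C₀ ^ 2 / (δ * P) / 2 := by
          field_simp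
        rw [w1] at p2 u2
        generalize C₀ ^ 2 / (δ * P) = D at *
        have w2 : 0 ≤ D * (φ x * pd 2 U x) ^ 2 := by positivity
        have w3 : 0 ≤ D * (φ x ^ 2 * (pd 0 U x ^ 2 + pd 1 U x ^ 2)) := by positivity
        have w4 : γ * (D * (φ x * pd 2 U x) ^ 2) ≤ 1 / 10 * (D * (φ x * pd 2 U x) ^ 2) :=
          mul_le_mul_of_nonneg_right h1 w2
        have w5 : 0 ≤ δ / 2 * (q x / sg x) := by positivity
        have w6 : 0 ≤ γ * δ * (q x / sg x) := by positivity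
        rw [eq3, eq2] at *
        linarith [t1, t2, p2, p3, u1, u2, w2, w3, w4, w5, w6]
    have hE' := hE x hxCo
    have hT2 : |T x| ≤ wt γ x * (δ / 2 * gr2 f x + δ / 2 * (q x / sg x) +
        (γ * δ * (f x ^ 2 / sg x) + γ * δ * (q x / sg x)) + C₀ ^ 2 / (δ * P) * q x)
        + 1 * (3 * K ^ 4) := by
      rw [hT]
      refine (abs_add_le _ _).trans ?_
      rw [abs_mul, abs_mul, abs_of_nonneg hw0]
      apply add_le_add
      · exact mul_le_mul_of_nonneg_left hP hw0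
      · exact mul_le_mul (hwt1 x (hCoCy x hxCo)) hE' (abs_nonneg _) zero_le_one
    refine hT2.trans (le_of_eq ?_)
    ring
  rw [hint]
  have hfin : |∫ x, T x| ≤ (δ / 2 * GW γ f + δ / 2 * ∫ x, wt γ x * (q x / sg x))
      + (γ * δ * PW γ f + γ * δ * ∫ x, wt γ x * (q x / sg x))
      + (3 * K ^ 4 * V0 + C₀ ^ 2 / (δ * P) * ∫ x, wt γ x * q x) := by
    refine abs_integral_le_integral_abs.trans ?_
    have j1 := (igf.const_mul (δ / 2)).add (iq.const_mul (δ / 2))
    have j2 := (ipf.const_mul (γ * δ)).add (iq.const_mul (γ * δ))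
    have j3 := (iCy.const_mul (3 * K ^ 4)).add (iqw.const_mul (C₀ ^ 2 / (δ * P)))
    refine (integral_mono iT.abs ((j1.add j2).add j3)
      (fun x => hTb x)).trans (le_of_eq ?_)
    have e1 := integral_add (j1.add j2) j3
    have e6 := integral_add (iCy.const_mul (3 * K ^ 4)) (iqw.const_mul (C₀ ^ 2 / (δ * P)))
    have e2 := integral_add j1 j2
    have e3 := integral_add (igf.const_mul (δ / 2)) (iq.const_mul (δ / 2))
    have e4 := integral_add (ipf.const_mul (γ * δ)) (iq.const_mul (γ * δ))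
    simp only [Pi.add_apply] at e1 e2 e3 e4 e6 ⊢
    rw [e1, e2, e3, e4, e6, integral_const_mul, integral_const_mul, integral_const_mul,
      integral_const_mul, integral_const_mul, integral_const_mul, integral_indicator hCym]
    have e5 : ∫ x in Cy c r h, (1 : ℝ) = V0 := by
      rw [hV0]
      simp [Measure.real]
    rw [e5]
    rfl
  have hhs : 0 ≤ ∫ x, wt γ x * hs2 (fun y => φ y * UU v y) x := by
    refine integral_nonneg fun x => mul_nonneg (wt_nonneg γ x) ?_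
    exact Finset.sum_nonneg fun i _ => Finset.sum_nonneg fun j _ => sq_nonneg _
  rw [← hUdef] at hUb hhs
  have hgU : ∫ x, wt γ x * (gr2 (fun y => φ y * U y) x / sg x)
      ≤ C₁ * GW γ (fun x => φ x * OO v x) + C' := by linarith
  have hQ1 : ∫ x, wt γ x * (q x / sg x) ≤
      2 * (C₁ * GW γ (fun x => φ x * OO v x) + C') + 6 * K ^ 4 * I0 := by linarith
  have hGJ : 0 ≤ GW γ f := integral_nonneg fun x => mul_nonneg (wt_nonneg γ x) (gr2_nonneg _ _)
  have hPJ : 0 ≤ PW γ f := integral_nonneg fun x => mul_nonneg (wt_nonneg γ x)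
    (div_nonneg (sq_nonneg _) (sg_nonneg x))
  have hGO : 0 ≤ GW γ (fun x => φ x * OO v x) :=
    integral_nonneg fun x => mul_nonneg (wt_nonneg γ x) (gr2_nonneg _ _)
  have hQn : 0 ≤ ∫ x, wt γ x * (q x / sg x) := integral_nonneg fun x =>
    mul_nonneg (wt_nonneg γ x) (div_nonneg (by
      rw [hq]
      exact mul_nonneg (sq_nonneg _) (gr2_nonneg _ _)) (sg_nonneg x))
  have hfJ : (fun x => φ x * JJ v x) = f := by rw [hfdef, hJdef]
  rw [hfJ]
  obtain ⟨Q, hQ⟩ : ∃ Q : ℝ, Q = ∫ x, wt γ x * (q x / sg x) := ⟨_, rfl⟩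
  obtain ⟨G, hG⟩ : ∃ G : ℝ, G = GW γ (fun x => φ x * OO v x) := ⟨_, rfl⟩
  rw [← hQ] at hfin hQ1 hQn
  rw [← hG] at hQ1 hGO ⊢
  have hδγ : (δ + 2 * (γ * δ)) * Q ≤ 2 * δ * Q := by
    have g1 : 2 * γ ≤ 1 := by linarith
    have g2 : (2 * γ) * (δ * Q) ≤ 1 * (δ * Q) := mul_le_mul_of_nonneg_right g1 (mul_nonneg hδ0 hQn)
    linarith
  have h5 : 2 * δ * Q ≤ 2 * δ * (2 * (C₁ * G + C') + 6 * K ^ 4 * I0) :=
    mul_le_mul_of_nonneg_left hQ1 (by positivity)
  have h6 : δ * C' ≤ C' := mul_le_of_le_one_left hC' hδ1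
  have h7 : δ * (K ^ 4 * I0) ≤ K ^ 4 * I0 := mul_le_of_le_one_left (by positivity) hδ1
  have h8 : 0 ≤ C₁ * δ * GW γ f := by positivity
  have h9 : 0 ≤ C₁ * δ * PW γ f := by positivity
  have h10 : 2 * (γ * δ) * PW γ f ≤ δ * PW γ f := by
    have g1 : 2 * γ ≤ 1 := by linarith
    have g2 : (2 * γ) * (δ * PW γ f) ≤ 1 * (δ * PW γ f) :=
      mul_le_mul_of_nonneg_right g1 (mul_nonneg hδ0 hPJ)
    linarith
  have h11 : 0 ≤ δ * G := mul_nonneg hδ0 hGO
  -- the additional term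
  obtain ⟨I, hI⟩ : ∃ I : ℝ, I = ∫ x, wt γ x * (φ x ^ 2 * OO v x ^ 2) := ⟨_, rfl⟩
  have hI0' : 0 ≤ I := by
    rw [hI]
    exact integral_nonneg fun x => mul_nonneg (wt_nonneg γ x) (by positivity)
  have hPU : 0 ≤ PW γ (fun x => φ x * UU v x) := integral_nonneg fun x =>
    mul_nonneg (wt_nonneg γ x) (div_nonneg (sq_nonneg _) (sg_nonneg x))
  rw [← hUdef, ← hI] at hUb2
  rw [← hUdef] at hPU
  rw [← hI]
  have hQw : ∫ x, wt γ x * q x ≤ (2 * C' + 6 * K ^ 4 * V0) * (1 + I) := by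
    have g1 : 0 ≤ K ^ 4 * V0 * I := by positivity
    have g2 : (2 * C' + 6 * K ^ 4 * V0) * (1 + I)
        = 2 * (C' * (1 + I)) + 6 * K ^ 4 * V0 + 6 * (K ^ 4 * V0 * I) := by ring
    linarith [hQ0w, hUb2, hPU]
  have hadd : C₀ ^ 2 / (δ * P) * ∫ x, wt γ x * q x
      ≤ C₀ ^ 2 / δ * (2 * C' + 6 * K ^ 4 * V0) / P * (1 + I) := by
    refine (mul_le_mul_of_nonneg_left hQw (by positivity)).trans (le_of_eq ?_)
    field_simp
  have hP1' : 1 ≤ 1 / P := by
    rw [le_div_iff₀ hP0]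
    linarith
  have hold : 4 * C' + 12 * K ^ 4 * I0 + 6 * K ^ 4 * V0
      ≤ (4 * C' + 12 * K ^ 4 * I0 + 6 * K ^ 4 * V0) / P * (1 + I) := by
    have g2 : 0 ≤ 4 * C' + 12 * K ^ 4 * I0 + 6 * K ^ 4 * V0 := by positivity
    rw [div_mul_eq_mul_div, le_div_iff₀ hP0]
    have g3 : (4 * C' + 12 * K ^ 4 * I0 + 6 * K ^ 4 * V0) * P
        ≤ (4 * C' + 12 * K ^ 4 * I0 + 6 * K ^ 4 * V0) * 1 := mul_le_mul_of_nonneg_left hP1 g2
    have g4 := mul_nonneg g2 hI0'
    have g5 : (4 * C' + 12 * K ^ 4 * I0 + 6 * K ^ 4 * V0) * (1 + I)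
        = (4 * C' + 12 * K ^ 4 * I0 + 6 * K ^ 4 * V0) * 1
          + (4 * C' + 12 * K ^ 4 * I0 + 6 * K ^ 4 * V0) * I := by ring
    linarith
  have hsplit : (4 * C' + 12 * K ^ 4 * I0 + 6 * K ^ 4 * V0
      + 2 * (C₀ ^ 2 / δ * (2 * C' + 6 * K ^ 4 * V0))) / P * (1 + I)
      = (4 * C' + 12 * K ^ 4 * I0 + 6 * K ^ 4 * V0) / P * (1 + I)
        + 2 * (C₀ ^ 2 / δ * (2 * C' + 6 * K ^ 4 * V0) / P * (1 + I)) := by
    ring
  rw [hsplit]
  linarith [hfin, hδγ, h5, h6, h7, h8, h9, h10, h11, hadd, hold]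

/-- AXQ-T1. -/
theorem t1q : StmAlg → StmAxF → StmUW → StmT1Q := fun hAlg _ hU => t1q' hAlg hU

end Pool.Agent.Q261.AXQ
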