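import Pool.Agent.Q67.AXI.Defs4
import Pool.Agent.Q261.AXW.T2W

/-!
# Project AXQ of helper67, job AXQ-2 (the stretching term of `OO`), by helper261
-/

set_option autoImplicit false

open MeasureTheory Set Metric Filter Topology
open scoped ContDiff
open H459R3.NS Pool.Agent.W268.NS Pool.Agent.Q67.VD

namespace Pool.Agent.Q261.AXQ

open Pool.Agent.Q85.CC Pool.Agent.Q85.CL Pool.Agent.TH305.AX Pool.Agent.Q67.AXI
open Pool.Agent.Q261.AXW

theorem wt_cont {γ : ℝ} (h0 : 0 < γ) : Continuous (wt γ) := by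
  unfold wt
  exact sg_cont.rpow_const fun _ => Or.inr h0.le

theorem wt_int {γ : ℝ} (h0 : 0 < γ) {f : V → ℝ} (hf : Continuous f) (hc : HasCompactSupport f) :
    Integrable (fun x => wt γ x * f x) :=
  ((wt_cont h0).mul hf).integrable_of_hasCompactSupport hc.mul_left

theorem t2q : StmAlg → StmT2Q := by
  intro hAlg γ h0 h1 K c r h r1 h1' C₀ δ P v φ hC₀ hδ hP hv hax hcut hcirc
  obtain ⟨⟨-, -, hJ, hO⟩, -, -, hall⟩ := hAlg v hv hax
  have hJc : Continuous (fun x => φ x * JJ v x) := hcut.sm.continuous.mul hJ.continuous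
  have hOc : Continuous (fun x => φ x * OO v x) := hcut.sm.continuous.mul hO.continuous
  have iJ := PW_int (γ := γ) h0 (by linarith) hJc hcut.cs.mul_right
  have iO := PW_int (γ := γ) h0 (by linarith) hOc hcut.cs.mul_right
  have cJ : HasCompactSupport (fun x => φ x ^ 2 * JJ v x ^ 2) :=
    HasCompactSupport.mul_right (hcut.cs.comp_left (g := fun t : ℝ => t ^ 2) (by norm_num))
  have cO : HasCompactSupport (fun x => φ x ^ 2 * OO v x ^ 2) :=
    HasCompactSupport.mul_right (hcut.cs.comp_left (g := fun t : ℝ => t ^ 2) (by norm_num))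
  have kJ : Integrable (fun x => wt γ x * (φ x ^ 2 * JJ v x ^ 2)) :=
    wt_int h0 ((hcut.sm.continuous.pow 2).mul (hJ.continuous.pow 2)) cJ
  have kO : Integrable (fun x => wt γ x * (φ x ^ 2 * OO v x ^ 2)) :=
    wt_int h0 ((hcut.sm.continuous.pow 2).mul (hO.continuous.pow 2)) cO
  have key : |∫ x, wt γ x * φ x ^ 2 * OO v x * (WW v x * JJ v x)| ≤
      ∫ x, ((δ / 2) * (wt γ x * ((φ x * JJ v x) ^ 2 / sg x) +
        wt γ x * ((φ x * OO v x) ^ 2 / sg x)) +
        (C₀ / P / 2) * (wt γ x * (φ x ^ 2 * JJ v x ^ 2) + wt γ x * (φ x ^ 2 * OO v x ^ 2))) := by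
    rw [← Real.norm_eq_abs]
    refine norm_integral_le_of_norm_le (((iJ.add iO).const_mul (δ / 2)).add
      ((kJ.add kO).const_mul (C₀ / P / 2))) (Eventually.of_forall fun x => ?_)
    rw [Real.norm_eq_abs]
    by_cases hx : φ x = 0
    · rw [hx]
      simp
    by_cases hs : sg x = 0
    · have : wt γ x = 0 := by
        unfold wt
        rw [hs, Real.zero_rpow h0.ne']
      rw [this]
      simp
    have hs' : 0 < sg x := lt_of_le_of_ne (Pool.Agent.Q261.AXW.sg_nonneg x) (Ne.symm hs)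
    have hxC : x ∈ Co c r h := hcut.supp (subset_tsupport φ hx)
    obtain ⟨h2, h2'⟩ := hcirc x hxC
    rw [(hall x).2.2.2.2.2.2.2.2.1, abs_mul, abs_of_pos hs'] at h2 h2'
    have hw : 0 ≤ wt γ x := Real.rpow_nonneg hs'.le _
    have h3 : |WW v x| ≤ δ / sg x + C₀ / P := by
      have g1 : 0 ≤ δ / sg x := div_nonneg hδ hs'.le
      have g2 : 0 ≤ C₀ / P := div_nonneg hC₀ hP.le
      rcases le_total (sg x) P with hsP | hsP
      · have h5 : |WW v x| ≤ δ / sg x := by
          rw [le_div_iff₀ hs']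
          linarith [h2' hsP]
        linarith
      · have h5 : |WW v x| ≤ C₀ / sg x := by
          rw [le_div_iff₀ hs']
          linarith
        have h6 : C₀ / sg x ≤ C₀ / P := div_le_div_of_nonneg_left hC₀ hP hsP
        linarith
    have e1 : |wt γ x * φ x ^ 2 * OO v x * (WW v x * JJ v x)| =
        wt γ x * (|φ x * JJ v x| * |φ x * OO v x|) * |WW v x| := by
      rw [abs_mul, abs_mul, abs_mul, abs_mul, abs_of_nonneg hw, abs_pow, abs_mul, abs_mul]
      ring
    rw [e1]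
    have h4 : |φ x * JJ v x| * |φ x * OO v x| ≤
        ((φ x * JJ v x) ^ 2 + (φ x * OO v x) ^ 2) / 2 := by
      nlinarith [sq_nonneg (|φ x * JJ v x| - |φ x * OO v x|), sq_abs (φ x * JJ v x),
        sq_abs (φ x * OO v x)]
    calc wt γ x * (|φ x * JJ v x| * |φ x * OO v x|) * |WW v x|
        ≤ wt γ x * (((φ x * JJ v x) ^ 2 + (φ x * OO v x) ^ 2) / 2) * (δ / sg x + C₀ / P) := by
          refine mul_le_mul (mul_le_mul_of_nonneg_left h4 hw) h3 (abs_nonneg _) ?_
          exact mul_nonneg hw (by positivity)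
      _ = (δ / 2) * (wt γ x * ((φ x * JJ v x) ^ 2 / sg x) +
        wt γ x * ((φ x * OO v x) ^ 2 / sg x)) +
        (C₀ / P / 2) * (wt γ x * (φ x ^ 2 * JJ v x ^ 2) + wt γ x * (φ x ^ 2 * OO v x ^ 2)) := by
          field_simp
  have kk1 : Integrable (fun x => (δ / 2) * (wt γ x * ((φ x * JJ v x) ^ 2 / sg x) +
        wt γ x * ((φ x * OO v x) ^ 2 / sg x))) := (iJ.add iO).const_mul (δ / 2)
  have kk2 : Integrable (fun x => (C₀ / P / 2) * (wt γ x * (φ x ^ 2 * JJ v x ^ 2) +
        wt γ x * (φ x ^ 2 * OO v x ^ 2))) := (kJ.add kO).const_mul (C₀ / P / 2)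
  rw [integral_add kk1 kk2,
    integral_const_mul, integral_const_mul, integral_add iJ iO, integral_add kJ kO] at key
  unfold PW
  have e2 : 2 * C₀ / P * ((∫ x, wt γ x * (φ x ^ 2 * JJ v x ^ 2))
      + ∫ x, wt γ x * (φ x ^ 2 * OO v x ^ 2)) = 4 * (C₀ / P / 2 *
      ((∫ x, wt γ x * (φ x ^ 2 * JJ v x ^ 2)) + ∫ x, wt γ x * (φ x ^ 2 * OO v x ^ 2))) := by
    ring
  rw [e2]
  linarith

end Pool.Agent.Q261.AXQ
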