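import Pool.Agent.Q67.AXI.Defs4
import Pool.Agent.Q177.AXI.Wb

/-!
# Project AXQ of helper67, job AXQ-4, by helper261 (adapts `Q177.AXI.Wb` of helper177)
-/

set_option autoImplicit false

open MeasureTheory Set Metric Filter Topology
open scoped ContDiff

namespace Pool.Agent.Q261.AXQ

open H459R3.NS Pool.Agent.W268.NS Pool.Agent.Q67.VD
open Pool.Agent.Q85.CC Pool.Agent.Q85.CL Pool.Agent.TH305.AX Pool.Agent.Q67.AXI
open Pool.Agent.Q285.AXI (slice co_mono)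
open Pool.Agent.Q177.AXI

/-- Powers of the distance to the final time are integrable. -/
lemma tpow_int {T₁ T a : ℝ} (hT : T₁ < T) (ha : -1 < a) :
    IntegrableOn (fun t => (T - t) ^ a) (Ico T₁ T) := by
  have h1 : IntervalIntegrable (fun x : ℝ => x ^ a) volume (T - T₁) (T - T) :=
    intervalIntegral.intervalIntegrable_rpow' ha
  have h2 := h1.comp_sub_left T
  rw [sub_sub_cancel, sub_sub_cancel] at h2
  rw [intervalIntegrable_iff_integrableOn_Ioo_of_le hT.le] at h2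
  rwa [integrableOn_Ico_iff_integrableOn_Ioo]

lemma tpow_cont {T₁ T : ℝ} (a : ℝ) : ContinuousOn (fun t => (T - t) ^ a) (Ico T₁ T) := by
  apply ContinuousOn.rpow_const
  · fun_prop
  · intro t ht
    left
    have := ht.2
    intro h
    linarith

/-- Gronwall's inequality with an integrable inhomogeneous term. -/
lemma gron2 {T₁ T : ℝ} {Y D b G k : ℝ → ℝ} (hT : T₁ < T)
    (hb : ContinuousOn b (Ico T₁ T)) (hbi : IntegrableOn b (Ico T₁ T))
    (hb0 : ∀ t ∈ Ico T₁ T, 0 ≤ b t)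
    (hG : ContinuousOn G (Ico T₁ T)) (hG0 : ∀ t ∈ Ico T₁ T, 0 ≤ G t)
    (hY0 : ∀ t ∈ Ico T₁ T, 0 ≤ Y t) (hder : ∀ t ∈ Ico T₁ T, HasDerivAt Y (D t) t)
    (hk : ∀ t ∈ Ico T₁ T, k t ≤ b t)
    (hD : ∀ t ∈ Ico T₁ T, D t ≤ -G t + b t * Y t + k t) :
    ∃ M : ℝ, 0 ≤ M ∧ ∀ t ∈ Ico T₁ T, Y t ≤ M ∧ ∫ s in T₁..t, G s ≤ M := by
  obtain ⟨M, hM0, hM⟩ := gron (Y := fun t => Y t + 1) (D := D) (b := b) (G := G) (C := 0) hT le_rfl
    hb hbi hb0 hG hG0 (fun t ht => by linarith [hY0 t ht])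
    (fun t ht => (hder t ht).add_const 1) (fun t ht => by
      have h1 := hD t ht
      have h2 := hk t ht
      linarith)
  refine ⟨M, hM0, fun t ht => ⟨?_, (hM t ht).2⟩⟩
  have := (hM t ht).1
  linarith

/-- A nonnegative continuous function with bounded integrals is integrable. -/
lemma int_of_bdd {T₁ T M : ℝ} {f : ℝ → ℝ} (hT : T₁ < T) (hf : ContinuousOn f (Ico T₁ T))
    (h0 : ∀ t ∈ Ico T₁ T, 0 ≤ f t) (hM : ∀ t ∈ Ico T₁ T, ∫ s in T₁..t, f s ≤ M) :
    IntegrableOn f (Ico T₁ T) := by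
  rw [integrableOn_Ico_iff_integrableOn_Ioo, ← integrableOn_Ioc_iff_integrableOn_Ioo]
  obtain ⟨b, hb⟩ : ∃ b : ℕ → ℝ, b = fun n : ℕ => T - (T - T₁) * (1 / ((n : ℝ) + 1)) := ⟨_, rfl⟩
  have hbm : ∀ n, b n ∈ Ico T₁ T := by
    intro n
    rw [hb]
    have h1 : 0 < 1 / ((n : ℝ) + 1) := by positivity
    have h2 : 1 / ((n : ℝ) + 1) ≤ 1 := by
      rw [div_le_one (by positivity)]
      linarith [(Nat.cast_nonneg n : (0 : ℝ) ≤ n)]
    have h3 : 0 < T - T₁ := by linarith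
    constructor
    · simp only
      nlinarith
    · simp only
      nlinarith [mul_pos h3 h1]
  have hlim : Tendsto b atTop (𝓝 T) := by
    rw [hb]
    have h1 : Tendsto (fun n : ℕ => T - (T - T₁) * (1 / ((n : ℝ) + 1))) atTop
        (𝓝 (T - (T - T₁) * 0)) :=
      tendsto_const_nhds.sub (tendsto_one_div_add_atTop_nhds_zero_nat.const_mul _)
    simpa using h1
  refine integrableOn_Ioc_of_intervalIntegral_norm_bounded_right (I := M) (l := atTop) (b := b)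
    (fun n => ?_) hlim (Eventually.of_forall fun n => ?_)
  · exact ((hf.mono fun s hs => ⟨hs.1, hs.2.trans_lt (hbm n).2⟩).integrableOn_compact
      isCompact_Icc).mono_set Ioc_subset_Icc_self
  · have h1 := hM (b n) (hbm n)
    rw [intervalIntegral.integral_of_le (hbm n).1] at h1
    refine (le_of_eq ?_).trans h1
    refine setIntegral_congr_fun measurableSet_Ioc fun s hs => ?_
    rw [Real.norm_of_nonneg (h0 s ⟨hs.1.le, hs.2.trans_lt (hbm n).2⟩)]

/-- The first step: the weighted energy. -/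
lemma step1 {T₁ T C γ c₂ θ : ℝ} {Y D B G : ℝ → ℝ} (hT : T₁ < T) (hT1 : T - T₁ ≤ 1) (hC : 0 ≤ C)
    (hγ : 0 < γ) (hγc : γ * c₂ ≤ 1 / 8) (hc₂ : 0 ≤ c₂) (hθ1 : θ < 1)
    (hB : ContinuousOn B (Ico T₁ T)) (hBi : IntegrableOn B (Ico T₁ T))
    (hG : ContinuousOn G (Ico T₁ T)) (hG0 : ∀ t, 0 ≤ G t)
    (hY0 : ∀ t, 0 ≤ Y t) (hder : ∀ t ∈ Ico T₁ T, HasDerivAt Y (D t) t)
    (hD : ∀ t ∈ Ico T₁ T, D t ≤ -G t + (2 * γ * |c₂ / (T - t) + B t| + C * (T - t) ^ (-θ)) * Y t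
      + C * (T - t) ^ (-θ)) :
    IntegrableOn (fun t => (T - t) ^ (1 / 4 : ℝ) * G t) (Ico T₁ T) := by
  have hGc : ContinuousOn (fun t => (T - t) ^ (1 / 4 : ℝ) * G t) (Ico T₁ T) :=
    (tpow_cont (1 / 4)).mul hG
  have hG0' : ∀ t ∈ Ico T₁ T, 0 ≤ (T - t) ^ (1 / 4 : ℝ) * G t := fun t ht =>
    mul_nonneg (Real.rpow_nonneg (by linarith [ht.2]) _) (hG0 t)
  obtain ⟨M, hM0, hM⟩ := gron2 (Y := fun t => (T - t) ^ (1 / 4 : ℝ) * Y t)
    (D := fun t => (-1) * (1 / 4 : ℝ) * (T - t) ^ ((1 / 4 : ℝ) - 1) * Y t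
      + (T - t) ^ (1 / 4 : ℝ) * D t)
    (b := fun t => 2 * γ * |B t| + C * (T - t) ^ (-θ))
    (G := fun t => (T - t) ^ (1 / 4 : ℝ) * G t) (k := fun t => C * (T - t) ^ (-θ)) hT
    ((hB.abs.const_mul (2 * γ) |>.congr fun t _ => rfl).add ((tpow_cont (-θ)).const_mul C |>.congr fun t _ => rfl))
    ((hBi.abs.const_mul (2 * γ)).add ((tpow_int hT (by linarith)).const_mul C))
    (fun t ht => by
      have h1 : 0 ≤ (T - t) ^ (-θ) := Real.rpow_nonneg (by linarith [ht.2]) _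
      positivity)
    hGc hG0' (fun t ht => mul_nonneg (Real.rpow_nonneg (by linarith [ht.2]) _) (hY0 t))
    (fun t ht => by
      have hs : T - t ≠ 0 := by linarith [ht.2]
      have h1 : HasDerivAt (fun s => T - s) (-1) t := by
        simpa using (hasDerivAt_id t).const_sub T
      exact (h1.rpow_const (p := 1 / 4) (Or.inl hs)).mul (hder t ht))
    (fun t ht => by
      have h1 : 0 ≤ 2 * γ * |B t| := by positivity
      linarith)
    (fun t ht => by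
      have hs : 0 < T - t := by linarith [ht.2]
      have hs1 : T - t ≤ 1 := by linarith [ht.1]
      have h1 := hD t ht
      obtain ⟨w, hw⟩ : ∃ w : ℝ, w = (T - t) ^ (1 / 4 : ℝ) := ⟨_, rfl⟩
      have hw0 : 0 < w := by rw [hw]; exact Real.rpow_pos_of_pos hs _
      have hw1 : w ≤ 1 := by rw [hw]; exact Real.rpow_le_one hs.le hs1 (by norm_num)
      have e1 : (T - t) ^ ((1 / 4 : ℝ) - 1) = w / (T - t) := by
        rw [hw, Real.rpow_sub_one hs.ne']
      obtain ⟨q, hq⟩ : ∃ q : ℝ, q = (T - t) ^ (-θ) := ⟨_, rfl⟩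
      have hq0 : 0 < q := by rw [hq]; exact Real.rpow_pos_of_pos hs _
      rw [e1, ← hw, ← hq]
      rw [← hq] at h1
      have h2 : |c₂ / (T - t) + B t| ≤ c₂ / (T - t) + |B t| := by
        have := abs_add_le (c₂ / (T - t)) (B t)
        rwa [abs_of_nonneg (div_nonneg hc₂ hs.le)] at this
      have h3 : 2 * γ * |c₂ / (T - t) + B t| ≤ 1 / 4 / (T - t) + 2 * γ * |B t| := by
        have h4 := mul_le_mul_of_nonneg_left h2 (show 0 ≤ 2 * γ by positivity)
        have h5 : 2 * γ * (c₂ / (T - t)) = 2 * (γ * c₂) / (T - t) := by ring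
        have h6 : 2 * (γ * c₂) / (T - t) ≤ 1 / 4 / (T - t) :=
          div_le_div_of_nonneg_right (by linarith) hs.le
        linarith
      have h7 : D t ≤ -G t + (1 / 4 / (T - t) + 2 * γ * |B t| + C * q) * Y t + C * q := by
        have h8 := mul_le_mul_of_nonneg_right h3 (hY0 t)
        linarith
      have h9 := mul_le_mul_of_nonneg_left h7 hw0.le
      have h10 : w * (C * q) ≤ C * q := mul_le_of_le_one_left (by positivity) hw1
      have e2 : w * (-G t + (1 / 4 / (T - t) + 2 * γ * |B t| + C * q) * Y t + C * q)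
          = -(w * G t) + (1 / 4) * (w / (T - t)) * Y t + (2 * γ * |B t| + C * q) * (w * Y t)
            + w * (C * q) := by ring
      rw [e2] at h9
      linarith)
  exact int_of_bdd hT hGc hG0' (fun t ht => (hM t ht).2)

theorem wbq (gm dl : ℝ → ℝ → ℝ) (hAlg : StmAlg) (hJnt : StmJnt) (hU : StmUW) (hDt : StmDtW)
    (hSm : StmSm) (hYd : StmYdQ gm dl) : StmWbQ dl := by
  intro μ c₂ hμ hμ2 hc₂ T E c R H K r h r1 h1 T₁ C₀ θ u p B φ hA hK hr1 hr1r hrR hr hh1 hh1h hhH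
    hh hT₁ hT₁T hTT hC₀ hθ hθ1 hcut hBc hBi hout hcirc hrad
  obtain ⟨hg0, hg1, hgc, hd0, hd1, hydg⟩ := hYd μ c₂ hμ hμ2 hc₂
  obtain ⟨γ, hγ⟩ : ∃ γ : ℝ, γ = gm μ c₂ := ⟨_, rfl⟩
  rw [← hγ] at hg0 hg1 hgc hydg
  have hr0 : 0 < r := hr1.trans hr1r
  have hsub : Co c r h ⊆ Co c R H := co_mono hr0 hrR hhH
  have hsub1 : Cy c r1 h1 ⊆ Co c r h := fun x hx =>
    ⟨hx.1.trans_lt (by nlinarith), hx.2.trans_lt hh1h⟩
  have hI : ∀ t ∈ Ico T₁ T, t ∈ Ioo 0 T := fun t ht => ⟨hT₁.trans_le ht.1, ht.2⟩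
  obtain ⟨j1, j2, j3, j4⟩ := hJnt T u hA.smooth_u
  obtain ⟨G, hG⟩ : ∃ G : ℝ → ℝ, G = fun t => GW γ (fun x => φ x * OO (u t) x) := ⟨_, rfl⟩
  have hGc : ContinuousOn G (Ico T₁ T) := by
    rw [hG]
    exact (hDt γ T (fun t => OO (u t)) φ hg0 j4 hcut.sm hcut.cs).1.mono hI
  have hG0 : ∀ t, 0 ≤ G t := by
    intro t
    rw [hG]
    exact integral_nonneg fun x => mul_nonneg (wt_nonneg γ x) (gr2_nonneg _ x)
  obtain ⟨Y, hY⟩ : ∃ Y : ℝ → ℝ, Y = fun s => (∫ x, wt γ x * (φ x ^ 2 * JJ (u s) x ^ 2))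
      + ∫ x, wt γ x * (φ x ^ 2 * OO (u s) x ^ 2) := ⟨_, rfl⟩
  have nJ : ∀ t, 0 ≤ ∫ x, wt γ x * (φ x ^ 2 * JJ (u t) x ^ 2) := fun t =>
    integral_nonneg fun x => mul_nonneg (wt_nonneg γ x) (by positivity)
  have nO : ∀ t, 0 ≤ ∫ x, wt γ x * (φ x ^ 2 * OO (u t) x ^ 2) := fun t =>
    integral_nonneg fun x => mul_nonneg (wt_nonneg γ x) (by positivity)
  have hY0 : ∀ t, 0 ≤ Y t := by
    intro t
    rw [hY]
    exact add_nonneg (nJ t) (nO t)
  -- step 1
  have hwG : IntegrableOn (fun t => (T - t) ^ (1 / 4 : ℝ) * G t) (Ico T₁ T) := by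
    obtain ⟨C, hC, hyd⟩ := hydg T E c R H K r h r1 h1 T₁ C₀ θ u p (fun t => c₂ / (T - t) + B t) φ
      hA hK hr1 hr1r hrR hr hh1 hh1h hhH hh hT₁ hT₁T hTT hC₀ hθ hcut hout hcirc hrad
    choose! D hD1 hD2 using hyd
    refine step1 (Y := Y) (D := D) (B := B) (γ := γ) (c₂ := c₂) (C := C) (θ := θ) hT₁T hTT hC hg0
      (by nlinarith) hc₂ hθ1 hBc hBi hGc hG0 hY0 (fun t ht => by rw [hY]; exact hD1 t ht)
      (fun t ht => by
        have := hD2 t ht
        rw [hG, hY]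
        exact this)
  -- the bounds of `UU`
  obtain ⟨C₁, hC₁, hU'⟩ := hU γ hg0 hg1
  obtain ⟨C₂, hC₂, hU'⟩ := hU' K c r h r1 h1 hK hr1 hr1r hr hh1 hh1h hh
  have hUt : ∀ t ∈ Ico T₁ T, _ := fun t ht => hU' (u t) φ (slice hA.smooth_u (hI t ht))
    (hA.axi t (hI t ht)) (fun x hx => hA.divfree t (hI t ht) x (hsub hx)) hcut (hout t ht)
  -- step 2
  obtain ⟨B1, hB1⟩ : ∃ B1 : ℝ → ℝ, B1 = fun t => K + √(C₂ * (1 + G t)) := ⟨_, rfl⟩
  have hsc : ContinuousOn (fun t => √(C₂ * (1 + G t))) (Ico T₁ T) :=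
    (continuousOn_const.mul (continuousOn_const.add hGc)).sqrt
  have hB1c : ContinuousOn B1 (Ico T₁ T) := by
    rw [hB1]
    exact continuousOn_const.add hsc
  have hB10 : ∀ t, 0 ≤ B1 t := by
    intro t
    rw [hB1]
    exact add_nonneg hK (Real.sqrt_nonneg _)
  have hsi : IntegrableOn (fun t => √(C₂ * (1 + G t))) (Ico T₁ T) := by
    have i1 : IntegrableOn (fun t => C₂ / 2 * ((T - t) ^ (1 / 4 : ℝ)
        + (T - t) ^ (1 / 4 : ℝ) * G t) + 1 / 2 * (T - t) ^ (-(1 / 4) : ℝ)) (Ico T₁ T) :=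
      (((tpow_int hT₁T (by norm_num)).add hwG).const_mul (C₂ / 2)).add
        ((tpow_int hT₁T (by norm_num)).const_mul (1 / 2))
    refine Integrable.mono' i1 (hsc.aestronglyMeasurable measurableSet_Ico) ?_
    rw [ae_restrict_iff' measurableSet_Ico]
    refine Eventually.of_forall fun t ht => ?_
    have hs : 0 < T - t := by linarith [ht.2]
    rw [Real.norm_of_nonneg (Real.sqrt_nonneg _)]
    obtain ⟨w, hw⟩ : ∃ w : ℝ, w = (T - t) ^ (1 / 4 : ℝ) := ⟨_, rfl⟩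
    have hw0 : 0 < w := by rw [hw]; exact Real.rpow_pos_of_pos hs _
    have e1 : (T - t) ^ (-(1 / 4) : ℝ) = 1 / w := by
      rw [hw, Real.rpow_neg hs.le]
      exact (one_div _).symm
    rw [e1, ← hw]
    have hA0 : 0 ≤ C₂ * (1 + G t) := mul_nonneg hC₂ (by linarith [hG0 t])
    have h3 := Real.sq_sqrt hA0
    have h4 : 0 ≤ w * (√(C₂ * (1 + G t)) - 1 / w) ^ 2 := by positivity
    have h5 : w * (√(C₂ * (1 + G t)) - 1 / w) ^ 2
        = w * √(C₂ * (1 + G t)) ^ 2 + 1 / w - 2 * √(C₂ * (1 + G t)) := by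
      field_simp
      ring
    rw [h3] at h5
    linarith
  have hB1i : IntegrableOn B1 (Ico T₁ T) := by
    rw [hB1]
    exact (integrableOn_const (by rw [Real.volume_Ico]; exact ENNReal.ofReal_ne_top)).add hsi
  have hUB : ∀ t ∈ Ico T₁ T, ∀ x ∈ Co c r h, |UU (u t) x| ≤ B1 t := by
    intro t ht x hx
    by_cases hx2 : x ∈ Cy c r1 h1
    · have h3 := (hUt t ht).2.2 x
      rw [hcut.one x hx2, one_mul] at h3
      apply Real.abs_le_sqrt at h3
      rw [hB1, hG]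
      simp only
      linarith
    · have hxo : x ∈ Out c r h r1 h1 := by
        refine ⟨⟨hx.1.le, hx.2.le⟩, ?_⟩
        by_contra hcon
        push Not at hcon
        exact hx2 ⟨hcon.1.le, hcon.2.le⟩
      have h3 := (hout t ht x hxo).2.1
      rw [hB1]
      simp only
      linarith [Real.sqrt_nonneg (C₂ * (1 + G t))]
  -- step 3
  have hrad1 : ∀ t ∈ Ico T₁ T, ∀ x ∈ Co c r h, 0 < sg x →
      rad (u t) x ≤ 2 - μ + B1 t * sg x := by
    intro t ht x hx hs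
    obtain ⟨-, -, -, halg⟩ := hAlg (u t) (slice hA.smooth_u (hI t ht)) (hA.axi t (hI t ht))
    rw [(halg x).2.2.2.2.2.2.2.2.2.1]
    have h3 := (le_abs_self _).trans (hUB t ht x hx)
    nlinarith
  obtain ⟨C, hC, hyd⟩ := hydg T E c R H K r h r1 h1 T₁ C₀ θ u p B1 φ
    hA hK hr1 hr1r hrR hr hh1 hh1h hhH hh hT₁ hT₁T hTT hC₀ hθ hcut hout hcirc hrad1
  choose! D hD1 hD2 using hyd
  obtain ⟨M, hM0, hM⟩ := gron2 (Y := Y) (D := D)
    (b := fun t => 2 * γ * |B1 t| + C * (T - t) ^ (-θ)) (G := G)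
    (k := fun t => C * (T - t) ^ (-θ)) hT₁T
    ((continuousOn_const.mul hB1c.abs).add (continuousOn_const.mul (tpow_cont (-θ))))
    ((hB1i.abs.const_mul (2 * γ)).add ((tpow_int hT₁T (by linarith)).const_mul C))
    (fun t ht => by
      have h3 : 0 ≤ (T - t) ^ (-θ) := Real.rpow_nonneg (by linarith [ht.2]) _
      positivity)
    hGc (fun t _ => hG0 t) (fun t _ => hY0 t) (fun t ht => by rw [hY]; exact hD1 t ht)
    (fun t ht => by
      have h3 : 0 ≤ 2 * γ * |B1 t| := by positivity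
      linarith)
    (fun t ht => by
      have := hD2 t ht
      rw [hG, hY]
      exact this)
  -- the window
  obtain ⟨g, hg⟩ : ∃ g : ℝ → ℝ, g = fun t => √(C₂ * (1 + G t)) := ⟨_, rfl⟩
  have hgc : ContinuousOn g (Ico T₁ T) := by
    rw [hg]
    exact (continuousOn_const.mul (continuousOn_const.add hGc)).sqrt
  have hg2 : ∀ t, g t ^ 2 = C₂ * (1 + G t) := by
    intro t
    rw [hg]
    exact Real.sq_sqrt (mul_nonneg hC₂ (by linarith [hG0 t]))
  obtain ⟨τ, hτ, hwin⟩ := window (T₁ := T₁) (T := T) (N := C₂ * ((T - T₁) + M)) (g := g)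
    (by
      apply mul_nonneg hC₂
      linarith) hgc (by
      intro t ht
      simp only [hg2]
      have hGI : IntervalIntegrable G volume T₁ t := by
        rw [intervalIntegrable_iff_integrableOn_Icc_of_le ht.1]
        exact (hGc.mono fun s hs => ⟨hs.1, hs.2.trans_lt ht.2⟩).integrableOn_compact isCompact_Icc
      rw [intervalIntegral.integral_const_mul]
      apply mul_le_mul_of_nonneg_left _ hC₂
      rw [intervalIntegral.integral_add (by simp) hGI, intervalIntegral.integral_const,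
        smul_eq_mul, mul_one]
      have := (hM t ht).2
      linarith [ht.2])
  -- smoothing
  obtain ⟨C₃, hC₃, hsm⟩ := hSm T E c R H r1 h1 T₁ K C₀ u p hA hr1 (hr1r.trans hrR) hh1
    (hh1h.trans hhH) hT₁ hT₁T (by
      intro t ht x hx
      refine ⟨(hcirc t ht x (hsub1 hx)).1, fun hbd => ?_⟩
      have hxo : x ∈ Out c r h r1 h1 := by
        refine ⟨⟨(hsub1 hx).1.le, (hsub1 hx).2.le⟩, ?_⟩
        rcases hbd with hbd | hbd
        · exact Or.inl hbd.ge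
        · exact Or.inr hbd.ge
      exact (hout t ht x hxo).2.2.1)
  refine ⟨C₃ / τ + (C₂ * (1 + M) + C₂ * (1 + M) + M), ?_, fun t ht => ⟨fun x hx => ?_, ?_⟩⟩
  · have := hτ.1
    positivity
  · have h2 := hsm τ hτ t ht g (hgc.mono fun s hs => ⟨hs.1, hs.2.trans_lt ht.2⟩)
      (fun s hs y hy => by
        have hs' : s ∈ Ico T₁ T := ⟨hs.1, hs.2.trans_lt ht.2⟩
        have h3 := (hUt s hs').2.2 y
        rw [hcut.one y hy, one_mul] at h3
        apply Real.abs_le_sqrt at h3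
        rw [hg, hG]
        exact h3)
      (hwin t ht) x hx
    have h4 : 0 ≤ C₂ * (1 + M) + C₂ * (1 + M) + M := by positivity
    linarith
  · obtain ⟨s1, s2, s3, s4⟩ := (hAlg (u t) (slice hA.smooth_u (hI t ht)) (hA.axi t (hI t ht))).1
    have h5 := inner_int (γ := γ) (c := c) hg0 (by linarith) hr1 (by linarith) hh1 hcut.sm hcut.cs
      s1 s4 hcut.one
    have h6 := (hUt t ht).2.1
    have h7 : ∫ x, wt γ x * (φ x ^ 2 * OO (u t) x ^ 2) ≤ M := by
      have := (hM t ht).1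
      rw [hY] at this
      simp only at this
      linarith [nJ t]
    have h8 : C₂ * (1 + ∫ x, wt γ x * (φ x ^ 2 * OO (u t) x ^ 2)) ≤ C₂ * (1 + M) :=
      mul_le_mul_of_nonneg_left (by linarith) hC₂
    have h9 : 0 ≤ C₂ * (1 + M) := by positivity
    have h10 : 0 ≤ C₃ / τ := div_nonneg hC₃ hτ.1.le
    linarith

end Pool.Agent.Q261.AXQ
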