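import Pool.Agent.Q67.AXI.Defs4
import Pool.Agent.Q149.AXI.YdW

/-!
# Project AXQ of helper67, job AXQ-3, by helper261 (adapts `Q149.AXI.YdW` of helper149)
-/

set_option autoImplicit false

open MeasureTheory Set Metric Filter Topology
open scoped ContDiff
open H459R3.NS Pool.Agent.W268.NS Pool.Agent.Q67.VD

namespace Pool.Agent.Q261.AXQ

open Pool.Agent.Q85.CC Pool.Agent.Q85.CL Pool.Agent.TH305.AX Pool.Agent.Q67.AXI
open Pool.Agent.W583.MD (sm_pd pd_mul')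
open Pool.Agent.Q149.AXI

/-- The energy estimate for one function (adapts `en_one` of `Q149.AXI.YdW`). -/
lemma en_oneQ (hEn : StmEnW) {γ μ Bt K c r h r1 h1 : ℝ} {v : V → V} {f S φ : V → ℝ}
    (h0 : 0 < γ) (hg1 : γ ≤ 1 / 10) (hμ : 4 * γ ≤ μ) (hK : 0 ≤ K) (hr : r ≤ 1) (hr0 : 0 ≤ r)
    (hv : ContDiff ℝ ∞ v) (hd : DFO (Co c r h) v) (sf : ContDiff ℝ ∞ f) (sS : ContDiff ℝ ∞ S)
    (hcut : Cut c r h r1 h1 K φ) (hf : ∀ x ∈ Out c r h r1 h1, |f x| ≤ K)
    (hvb : ∀ x ∈ Out c r h r1 h1, ∀ i, |v x i| ≤ K)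
    (hrad : ∀ x ∈ Co c r h, 0 < sg x → rad v x ≤ 2 - μ + Bt * sg x) :
    ∫ x, 2 * wt γ x * φ x ^ 2 * f x * (LL f x - W221.NS.adv v f x + S x)
      ≤ -2 * GW γ (fun x => φ x * f x) - γ * μ * PW γ (fun x => φ x * f x)
        + 2 * γ * |Bt| * (∫ x, wt γ x * (φ x ^ 2 * f x ^ 2)) + 2 * (∫ x, wt γ x * φ x ^ 2 * f x * S x)
        + (12 * K ^ 4 + 4 * K ^ 3) * volume.real (Cy c r h) := by
  have hγ1 : γ < 1 := by linarith
  have sφ := hcut.sm
  have cφ := hcut.cs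
  obtain ⟨-, e2, e3⟩ := hEn γ h0 hγ1 (Co c r h) v f S φ (Co_open c r h) hv hd sf sS sφ cφ
    hcut.supp
  rw [e3]
  obtain ⟨R, hR⟩ := Cy_bdd (c := c) (r := r) (h := h) hr0
  have hCym : MeasurableSet (Cy c r h) := (Cy_closed c r h).measurableSet
  have hVf : volume (Cy c r h) < ⊤ := (measure_mono hR).trans_lt measure_closedBall_lt_top
  have hCoCy : ∀ x ∈ Co c r h, x ∈ Cy c r h := fun x hx => ⟨hx.1.le, hx.2.le⟩
  have hφoff : ∀ x, x ∉ tsupport φ → φ x = 0 := fun x hx => image_eq_zero_of_notMem_tsupport hx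
  have sφf : ContDiff ℝ ∞ (fun x => φ x * f x) := sφ.mul sf
  have cφf2 : HasCompactSupport (fun x => (φ x * f x) ^ 2) := by
    refine HasCompactSupport.intro cφ.isCompact fun x hx => ?_
    simp [hφoff x hx]
  have iP : Integrable (fun x => wt γ x * ((φ x * f x) ^ 2 / sg x)) :=
    int_div h0 hγ1 (sφf.continuous.pow 2) cφf2
  have iE : Integrable (fun x => wt γ x * (φ x * f x) ^ 2) :=
    int_wt h0 (sφf.continuous.pow 2) cφf2
  have eE : ∫ x, wt γ x * (φ x ^ 2 * f x ^ 2) = ∫ x, wt γ x * (φ x * f x) ^ 2 :=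
    integral_congr_ae (Eventually.of_forall fun x => by simp only [mul_pow])
  have hE0 : 0 ≤ ∫ x, wt γ x * (φ x * f x) ^ 2 :=
    integral_nonneg fun x => mul_nonneg (wt_nonneg γ x) (sq_nonneg _)
  have hP0 : 0 ≤ PW γ (fun x => φ x * f x) := integral_nonneg fun x =>
    mul_nonneg (wt_nonneg γ x) (div_nonneg (sq_nonneg _) (sg_nonneg x))
  -- the radial velocity
  have hR1 : ∫ x, wt γ x * (rad v x / sg x) * (φ x * f x) ^ 2
      ≤ (2 - μ) * PW γ (fun x => φ x * f x) + Bt * ∫ x, wt γ x * (φ x * f x) ^ 2 := by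
    have e4 := integral_add (iP.const_mul (2 - μ)) (iE.const_mul Bt)
    have e5 : (2 - μ) * PW γ (fun x => φ x * f x) + Bt * ∫ x, wt γ x * (φ x * f x) ^ 2
        = ∫ x, ((2 - μ) * (wt γ x * ((φ x * f x) ^ 2 / sg x)) + Bt * (wt γ x * (φ x * f x) ^ 2)) := by
      rw [e4, integral_const_mul, integral_const_mul]
      rfl
    rw [e5]
    refine integral_mono_ae e2 ((iP.const_mul (2 - μ)).add (iE.const_mul Bt)) ?_
    filter_upwards [ae_sg] with x hx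
    have hs : 0 < sg x := lt_of_le_of_ne (sg_nonneg x) (Ne.symm hx)
    by_cases hx2 : x ∈ tsupport φ
    · have h3 := hrad x (hcut.supp hx2) hs
      have h4 : rad v x / sg x ≤ (2 - μ) / sg x + Bt := by
        rw [div_le_iff₀ hs, add_mul, div_mul_cancel₀ _ hs.ne']
        exact h3
      calc wt γ x * (rad v x / sg x) * (φ x * f x) ^ 2
          = (wt γ x * (φ x * f x) ^ 2) * (rad v x / sg x) := by ring
        _ ≤ (wt γ x * (φ x * f x) ^ 2) * ((2 - μ) / sg x + Bt) :=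
            mul_le_mul_of_nonneg_left h4 (mul_nonneg (wt_nonneg γ x) (sq_nonneg _))
        _ = _ := by ring
    · rw [hφoff x hx2]
      simp
  -- the remainder
  have hRem : |∫ x, wt γ x * f x ^ 2 * (2 * gr2 φ x + W221.NS.adv v (fun y => φ y ^ 2) x
      - (2 - 2 * γ) / sg x * RR (fun y => φ y ^ 2) x)|
      ≤ (12 * K ^ 4 + 4 * K ^ 3) * volume.real (Cy c r h) := by
    have iCy : Integrable ((Cy c r h).indicator (fun _ : V => (12 * K ^ 4 + 4 * K ^ 3))) := by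
      rw [integrable_indicator_iff hCym]
      exact integrableOn_const hVf.ne
    have e6 : (12 * K ^ 4 + 4 * K ^ 3) * volume.real (Cy c r h)
        = ∫ x, (Cy c r h).indicator (fun _ : V => (12 * K ^ 4 + 4 * K ^ 3)) x := by
      rw [integral_indicator hCym]
      simp [Measure.real, mul_comm]
    rw [e6, ← Real.norm_eq_abs]
    refine norm_integral_le_of_norm_le iCy (Eventually.of_forall fun x => ?_)
    rw [Real.norm_eq_abs]
    have hpd2 : ∀ i, pd i (fun y => φ y ^ 2) x = 2 * φ x * pd i φ x := by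
      intro i
      have e : (fun y => φ y ^ 2) = fun y => φ y * φ y := by
        funext y
        ring
      rw [e, pd_mul' sφ sφ]
      ring
    have hpos : 0 ≤ (Cy c r h).indicator (fun _ : V => (12 * K ^ 4 + 4 * K ^ 3)) x :=
      indicator_nonneg (fun _ _ => by positivity) x
    have hzero : (∀ i, pd i φ x = 0) → |wt γ x * f x ^ 2 * (2 * gr2 φ x +
        W221.NS.adv v (fun y => φ y ^ 2) x - (2 - 2 * γ) / sg x * RR (fun y => φ y ^ 2) x)|
        ≤ (Cy c r h).indicator (fun _ : V => (12 * K ^ 4 + 4 * K ^ 3)) x := by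
      intro hz
      have e7 : gr2 φ x = 0 := by
        unfold gr2
        simp [hz]
      have e8 : W221.NS.adv v (fun y => φ y ^ 2) x = 0 := by
        unfold W221.NS.adv
        simp [hpd2, hz]
      have e9 : RR (fun y => φ y ^ 2) x = 0 := by
        unfold RR
        rw [hpd2, hpd2, hz, hz]
        ring
      rw [e7, e8, e9]
      simpa using hpos
    by_cases hx : x ∈ tsupport φ
    swap
    · exact hzero fun i => pd_off hx i
    have hxCo := hcut.supp hx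
    have hxCy := hCoCy x hxCo
    by_cases hx2 : x ∈ Cy c r1 h1
    · apply hzero
      intro i
      apply pd_zero_of_max
      intro y
      rw [hcut.one x hx2]
      exact hcut.le y
    have hxO : x ∈ Out c r h r1 h1 := by
      refine ⟨hxCy, ?_⟩
      by_contra hcon
      push Not at hcon
      exact hx2 ⟨hcon.1.le, hcon.2.le⟩
    rw [indicator_of_mem hxCy]
    obtain ⟨bφ, -, bR⟩ := hcut.bd x
    have bf : f x ^ 2 ≤ K ^ 2 := by
      rw [← sq_abs]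
      exact pow_le_pow_left₀ (abs_nonneg _) (hf x hxO) 2
    have hsg1 : sg x ≤ 1 := by
      have h3 : sg x ≤ r ^ 2 := hxCy.1
      nlinarith
    have hw1 : wt γ x ≤ 1 := Real.rpow_le_one (sg_nonneg x) hsg1 h0.le
    have hw0 := wt_nonneg γ x
    have hφ0 := hcut.nn x
    have hφ1 := hcut.le x
    have b1 : |2 * gr2 φ x| ≤ 6 * K ^ 2 := by
      have : ∀ i, pd i φ x ^ 2 ≤ K ^ 2 := fun i => by
        rw [← sq_abs]
        exact pow_le_pow_left₀ (abs_nonneg _) (bφ i) 2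
      rw [abs_of_nonneg (mul_nonneg (by norm_num) (gr2_nonneg _ _))]
      unfold gr2
      rw [Fin.sum_univ_three]
      linarith [this 0, this 1, this 2]
    have b2 : |W221.NS.adv v (fun y => φ y ^ 2) x| ≤ 6 * K ^ 2 := by
      unfold W221.NS.adv
      calc _ ≤ ∑ j, |v x j * pd j (fun y => φ y ^ 2) x| := Finset.abs_sum_le_sum_abs _ _
        _ ≤ ∑ _j : Fin 3, 2 * K ^ 2 := by
            refine Finset.sum_le_sum fun j _ => ?_
            rw [hpd2, abs_mul, abs_mul, abs_mul, abs_of_nonneg hφ0, abs_two]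
            calc |v x j| * (2 * φ x * |pd j φ x|) ≤ K * (2 * 1 * K) := by
                  have := hvb x hxO j
                  have := bφ j
                  gcongr
              _ = 2 * K ^ 2 := by ring
        _ = 6 * K ^ 2 := by
            simp
            ring
    have b3 : |(2 - 2 * γ) / sg x * RR (fun y => φ y ^ 2) x| ≤ 4 * K := by
      have e10 : RR (fun y => φ y ^ 2) x = 2 * φ x * RR φ x := by
        unfold RR
        rw [hpd2, hpd2]
        ring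
      rw [e10]
      rcases (sg_nonneg x).eq_or_lt with hs | hs
      · rw [← hs, div_zero, zero_mul, abs_zero]
        positivity
      · rw [abs_mul, abs_div, abs_of_pos hs, abs_of_pos (by linarith : 0 < 2 - 2 * γ), abs_mul,
          abs_mul, abs_two, abs_of_nonneg hφ0]
        calc (2 - 2 * γ) / sg x * (2 * φ x * |RR φ x|)
            ≤ 2 / sg x * (2 * 1 * (K * sg x)) := by
              gcongr
              linarith
          _ = 4 * K := by
              field_simp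
              ring
    have b4 : |2 * gr2 φ x + W221.NS.adv v (fun y => φ y ^ 2) x
        - (2 - 2 * γ) / sg x * RR (fun y => φ y ^ 2) x| ≤ 12 * K ^ 2 + 4 * K := by
      have := abs_sub (2 * gr2 φ x + W221.NS.adv v (fun y => φ y ^ 2) x)
        ((2 - 2 * γ) / sg x * RR (fun y => φ y ^ 2) x)
      have := abs_add_le (2 * gr2 φ x) (W221.NS.adv v (fun y => φ y ^ 2) x)
      linarith
    rw [abs_mul, abs_mul, abs_of_nonneg hw0, abs_of_nonneg (sq_nonneg _)]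
    calc wt γ x * f x ^ 2 * _ ≤ 1 * K ^ 2 * (12 * K ^ 2 + 4 * K) := by
          gcongr
      _ = 12 * K ^ 4 + 4 * K ^ 3 := by ring
  have hRem' := (le_abs_self _).trans hRem
  rw [eE]
  have hB : Bt * (∫ x, wt γ x * (φ x * f x) ^ 2) ≤ |Bt| * ∫ x, wt γ x * (φ x * f x) ^ 2 :=
    mul_le_mul_of_nonneg_right (le_abs_self _) hE0
  have hB2 : 0 ≤ |Bt| * ∫ x, wt γ x * (φ x * f x) ^ 2 := mul_nonneg (abs_nonneg _) hE0
  have hR2 := mul_le_mul_of_nonneg_left hR1 (show 0 ≤ 2 * γ by positivity)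
  have hB3 : 2 * γ * (Bt * ∫ x, wt γ x * (φ x * f x) ^ 2)
      ≤ 2 * γ * |Bt| * ∫ x, wt γ x * (φ x * f x) ^ 2 := by
    calc _ ≤ 2 * γ * (|Bt| * ∫ x, wt γ x * (φ x * f x) ^ 2) :=
          mul_le_mul_of_nonneg_left hB (by positivity)
      _ = _ := by ring
  have hP2 : (-(4 * γ * (1 - γ)) + 2 * γ * (2 - μ)) * PW γ (fun x => φ x * f x)
      ≤ -(γ * μ) * PW γ (fun x => φ x * f x) := by
    apply mul_le_mul_of_nonneg_right _ hP0
    nlinarith
  nlinarith [hRem', hR2, hB3, hP2]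

/-- AXQ-YD. -/
theorem ydq : StmAlg → StmAxF → StmEqJ → StmEqO → StmJnt → StmEnW → StmT1Q → StmT2Q → StmDtW →
    ∃ gm dl : ℝ → ℝ → ℝ, StmYdQ gm dl := by
  intro hAlg _ hEqJ hEqO hJnt hEn hT1 hT2 hDt
  unfold StmT1Q at hT1
  choose! C1 hC1 using hT1
  refine ⟨fun μ c₂ => min (min (μ / 4) (1 / 10)) (1 / (8 * (c₂ + 1))),
    fun μ c₂ => min 1 (min (min (μ / 4) (1 / 10)) (1 / (8 * (c₂ + 1))) * μ /
    (8 * (1 + C1 (min (min (μ / 4) (1 / 10)) (1 / (8 * (c₂ + 1))))))),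
    fun μ c₂ hμ0 hμ2 hc₂ => ?_⟩
  obtain ⟨γ, hγ⟩ : ∃ γ : ℝ, γ = min (min (μ / 4) (1 / 10)) (1 / (8 * (c₂ + 1))) := ⟨_, rfl⟩
  obtain ⟨δ, hδ⟩ : ∃ δ : ℝ, δ = min 1 (γ * μ / (8 * (1 + C1 γ))) := ⟨_, rfl⟩
  simp only [← hγ, ← hδ]
  have h0 : 0 < γ := by
    rw [hγ]
    exact lt_min (lt_min (by positivity) (by norm_num)) (by positivity)
  have hg1 : γ ≤ 1 / 10 := by
    rw [hγ]
    exact (min_le_left _ _).trans (min_le_right _ _)
  have hgμ : 4 * γ ≤ μ := by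
    have : γ ≤ μ / 4 := by
      rw [hγ]
      exact (min_le_left _ _).trans (min_le_left _ _)
    linarith
  have hgc : γ * (8 * (c₂ + 1)) ≤ 1 := by
    have : γ ≤ 1 / (8 * (c₂ + 1)) := by
      rw [hγ]
      exact min_le_right _ _
    rwa [le_div_iff₀ (by positivity)] at this
  obtain ⟨hC1p, hC1b⟩ := hC1 γ h0 hg1
  have hδ0 : 0 < δ := by
    rw [hδ]
    exact lt_min one_pos (by positivity)
  have hδ1 : δ ≤ 1 := by
    rw [hδ]
    exact min_le_left _ _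
  have hδC : (1 + C1 γ) * δ ≤ γ * μ / 8 := by
    have h2 : δ ≤ γ * μ / (8 * (1 + C1 γ)) := by
      rw [hδ]
      exact min_le_right _ _
    rw [le_div_iff₀ (by positivity)] at h2
    linarith
  refine ⟨h0, hg1, hgc, hδ0, hδ1, ?_⟩
  intro T E c R H K r h r1 h1 T₁ C₀ θ u p B φ hA hK hr1 hr hrR hr' hh1 hh hhH hh' hT1' hTT hTT1
    hC₀ hθ hcut hbd hci hrad
  obtain ⟨C, hC, hT1b⟩ := hC1b K c r h r1 h1 C₀ δ hK hr1 hr hr' hh1 hh hh' hC₀ hδ0 hδ1
  have hV0 : 0 ≤ volume.real (Cy c r h) := measureReal_nonneg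
  refine ⟨C + 2 * C₀ + 2 * ((12 * K ^ 4 + 4 * K ^ 3) * volume.real (Cy c r h)), by positivity,
    fun t ht => ?_⟩
  have hTt0 : 0 < T - t := by linarith [ht.2]
  have hTt1 : T - t ≤ 1 := by linarith [ht.1]
  obtain ⟨P, hPdef⟩ : ∃ P : ℝ, P = (T - t) ^ θ := ⟨_, rfl⟩
  have hP0 : 0 < P := by
    rw [hPdef]
    exact Real.rpow_pos_of_pos hTt0 _
  have hP1 : P ≤ 1 := by
    rw [hPdef]
    exact Real.rpow_le_one hTt0.le hTt1 hθ.le
  have hq : (T - t) ^ (-θ) = 1 / P := by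
    rw [hPdef, Real.rpow_neg hTt0.le, one_div]
  rw [hq]
  have hci' := hci t ht
  rw [← hPdef] at hci'
  have ht' : t ∈ Ioo 0 T := ⟨lt_of_lt_of_le hT1' ht.1, ht.2⟩
  have hv : ContDiff ℝ ∞ (u t) := by
    rw [← contDiffOn_univ]
    exact hA.smooth_u.comp (f := fun x : V => (t, x)) (by fun_prop)
      (fun x _ => ⟨ht', mem_univ _⟩)
  have hax := hA.axi t ht'
  have hr0 : 0 ≤ r := by linarith
  have hCC : ∀ x ∈ Co c r h, x ∈ Co c R H := by
    intro x hx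
    refine ⟨hx.1.trans ?_, hx.2.trans hhH⟩
    nlinarith
  have hd : DFO (Co c r h) (u t) := fun x hx => hA.divfree t ht' x (hCC x hx)
  obtain ⟨⟨sU, sW, sJ, sO⟩, -, -, -⟩ := hAlg (u t) hv hax
  obtain ⟨-, -, jJ, jO⟩ := hJnt T u hA.smooth_u
  have dJ := (hDt γ T (fun s x => JJ (u s) x) φ h0 jJ hcut.sm hcut.cs).2 t ht'
  have dO := (hDt γ T (fun s x => OO (u s) x) φ h0 jO hcut.sm hcut.cs).2 t ht'
  have hsuppz : ∀ x, x ∉ tsupport φ → φ x = 0 :=
    fun x hx => image_eq_zero_of_notMem_tsupport hx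
  have eJ : ∫ x, 2 * wt γ x * φ x ^ 2 * JJ (u t) x * deriv (fun s => JJ (u s) x) t
      = ∫ x, 2 * wt γ x * φ x ^ 2 * JJ (u t) x * (LL (JJ (u t)) x
        - W221.NS.adv (u t) (JJ (u t)) x + SS (u t) x) := by
    refine integral_congr_ae ?_
    filter_upwards [ae_sg] with x hx
    by_cases hx2 : x ∈ tsupport φ
    · rw [(hEqJ T E c R H u p hA t ht' x (hCC x (hcut.supp hx2)) hx).deriv]
    · rw [hsuppz x hx2]
      ring
  have eO : ∫ x, 2 * wt γ x * φ x ^ 2 * OO (u t) x * deriv (fun s => OO (u s) x) t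
      = ∫ x, 2 * wt γ x * φ x ^ 2 * OO (u t) x * (LL (OO (u t)) x
        - W221.NS.adv (u t) (OO (u t)) x + -(2 * WW (u t) x * JJ (u t) x)) := by
    refine integral_congr_ae ?_
    filter_upwards [ae_sg] with x hx
    by_cases hx2 : x ∈ tsupport φ
    · rw [(hEqO T E c R H u p hA t ht' x (hCC x (hcut.supp hx2)) hx).deriv]
      ring
    · rw [hsuppz x hx2]
      ring
  have sSS : ContDiff ℝ ∞ (SS (u t)) := by
    have a1 := (sm_RR sU).mul (sm_pd sW 2)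
    have a2 := (sm_RR sW).mul (sm_pd sU 2)
    have a3 := (contDiff_const (c := (2 : ℝ))).mul sW |>.mul (sm_pd sU 2)
    exact (a1.neg.add a2).add a3
  have sS2 : ContDiff ℝ ∞ (fun x => -(2 * WW (u t) x * JJ (u t) x)) :=
    (((contDiff_const (c := (2 : ℝ))).mul sW).mul sJ).neg
  have nJ := en_oneQ (Bt := B t) hEn h0 hg1 hgμ hK hr' hr0 hv hd sJ sSS hcut
    (fun x hx => (hbd t ht x hx).2.2.2.1) (fun x hx => (hbd t ht x hx).1)
    (fun x hx hs => hrad t ht x hx hs)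
  have nO := en_oneQ (Bt := B t) hEn h0 hg1 hgμ hK hr' hr0 hv hd sO sS2 hcut
    (fun x hx => (hbd t ht x hx).2.2.2.2.1) (fun x hx => (hbd t ht x hx).1)
    (fun x hx hs => hrad t ht x hx hs)
  have k1 := hT1b P (u t) φ hP0 hP1 hv hax hd hcut (hbd t ht) hci'
  have k2 := hT2 γ h0 hg1 K c r h r1 h1 C₀ δ P (u t) φ hC₀ hδ0.le hP0 hv hax hcut hci'
  have k3 : ∫ x, wt γ x * φ x ^ 2 * OO (u t) x * -(2 * WW (u t) x * JJ (u t) x)
      = -2 * ∫ x, wt γ x * φ x ^ 2 * OO (u t) x * (WW (u t) x * JJ (u t) x) := by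
    rw [← integral_const_mul]
    refine integral_congr_ae (Eventually.of_forall fun x => ?_)
    simp only []
    ring
  rw [k3] at nO
  refine ⟨_, dJ.add dO, ?_⟩
  rw [eJ, eO]
  obtain ⟨A1, hA1⟩ : ∃ A1 : ℝ, A1 = ∫ x, wt γ x * φ x ^ 2 * JJ (u t) x * SS (u t) x := ⟨_, rfl⟩
  obtain ⟨A2, hA2⟩ : ∃ A2 : ℝ, A2 = ∫ x, wt γ x * φ x ^ 2 * OO (u t) x *
    (WW (u t) x * JJ (u t) x) := ⟨_, rfl⟩
  rw [← hA1] at nJ k1
  rw [← hA2] at nO k2
  have m1 := le_abs_self A1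
  have m2 := neg_abs_le A2
  have gJ : 0 ≤ GW γ (fun x => φ x * JJ (u t) x) :=
    integral_nonneg fun x => mul_nonneg (wt_nonneg γ x) (gr2_nonneg _ _)
  have gO : 0 ≤ GW γ (fun x => φ x * OO (u t) x) :=
    integral_nonneg fun x => mul_nonneg (wt_nonneg γ x) (gr2_nonneg _ _)
  have pJ : 0 ≤ PW γ (fun x => φ x * JJ (u t) x) := integral_nonneg fun x =>
    mul_nonneg (wt_nonneg γ x) (div_nonneg (sq_nonneg _) (sg_nonneg x))
  have pO : 0 ≤ PW γ (fun x => φ x * OO (u t) x) := integral_nonneg fun x =>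
    mul_nonneg (wt_nonneg γ x) (div_nonneg (sq_nonneg _) (sg_nonneg x))
  obtain ⟨GJ, hGJ⟩ : ∃ G : ℝ, G = GW γ (fun x => φ x * JJ (u t) x) := ⟨_, rfl⟩
  obtain ⟨GO, hGO⟩ : ∃ G : ℝ, G = GW γ (fun x => φ x * OO (u t) x) := ⟨_, rfl⟩
  obtain ⟨PJ, hPJ⟩ : ∃ G : ℝ, G = PW γ (fun x => φ x * JJ (u t) x) := ⟨_, rfl⟩
  obtain ⟨PO, hPO⟩ : ∃ G : ℝ, G = PW γ (fun x => φ x * OO (u t) x) := ⟨_, rfl⟩
  rw [← hGJ] at nJ k1 gJ
  rw [← hGO] at nO k1 gO ⊢
  rw [← hPJ] at nJ k1 k2 pJ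
  rw [← hPO] at nO k2 pO
  have hCδ : 0 ≤ C1 γ * δ := by positivity
  have hγμ : γ * μ ≤ 1 / 5 := by nlinarith
  have hγμ0 : 0 ≤ γ * μ := by positivity
  have c1 : C1 γ * δ ≤ 1 / 40 := by nlinarith
  have c2 : C1 γ * δ + 2 * δ ≤ γ * μ := by nlinarith
  have c3 : 2 * δ ≤ γ * μ := by nlinarith
  have w1 : C1 γ * δ * GJ ≤ 1 / 40 * GJ := mul_le_mul_of_nonneg_right c1 gJ
  have w2 : C1 γ * δ * GO ≤ 1 / 40 * GO := mul_le_mul_of_nonneg_right c1 gO
  have w3 : (C1 γ * δ + 2 * δ) * PJ ≤ γ * μ * PJ := mul_le_mul_of_nonneg_right c2 pJ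
  have w4 : 2 * δ * PO ≤ γ * μ * PO := mul_le_mul_of_nonneg_right c3 pO
  obtain ⟨EJ, hEJ⟩ : ∃ EJ : ℝ, EJ = ∫ x, wt γ x * (φ x ^ 2 * JJ (u t) x ^ 2) := ⟨_, rfl⟩
  obtain ⟨EO, hEO⟩ : ∃ EO : ℝ, EO = ∫ x, wt γ x * (φ x ^ 2 * OO (u t) x ^ 2) := ⟨_, rfl⟩
  have eJ0 : 0 ≤ EJ := by
    rw [hEJ]
    exact integral_nonneg fun x => mul_nonneg (wt_nonneg γ x) (by positivity)
  have eO0 : 0 ≤ EO := by
    rw [hEO]
    exact integral_nonneg fun x => mul_nonneg (wt_nonneg γ x) (by positivity)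
  rw [← hEJ] at nJ k2
  rw [← hEO] at nO k1 k2
  rw [← hEJ, ← hEO]
  obtain ⟨R0, hR0⟩ : ∃ R0 : ℝ, R0 = (12 * K ^ 4 + 4 * K ^ 3) * volume.real (Cy c r h) := ⟨_, rfl⟩
  have hR0n : 0 ≤ R0 := by
    rw [hR0]
    positivity
  rw [← hR0] at nJ nO ⊢
  obtain ⟨q, hqdef⟩ : ∃ q : ℝ, q = 1 / P := ⟨_, rfl⟩
  have hq1 : 1 ≤ q := by
    rw [hqdef, le_div_iff₀ hP0]
    linarith
  have hCq : C / P = C * q := by
    rw [hqdef]
    ring
  have hCq2 : 2 * C₀ / P = 2 * C₀ * q := by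
    rw [hqdef]
    ring
  rw [hCq] at k1
  rw [hCq2] at k2
  rw [← hqdef]
  have v1 : 0 ≤ C * q * EJ := by positivity
  have v2 : 0 ≤ C₀ * q := by positivity
  have v3 : R0 * 1 ≤ R0 * q := mul_le_mul_of_nonneg_left hq1 hR0n
  have v4 : 0 ≤ R0 * q * (EJ + EO) := by positivity
  linarith [nJ, nO, k1, k2, m1, m2, w1, w2, w3, w4, gJ, gO, v1, v2, v3, v4]

end Pool.Agent.Q261.AXQ
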